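import Mathlib
import Pool.Agent.N420.BS.Defs

/-!
# Project ZD: the basin of `√2` for `x (n+1) = 1 / x n + 1 / x (n-2)` is Zariski dense

`w n = x n / √2` for even `n` and `√2 / x n` for odd `n` is an arithmetic mean (`n` even) or a
harmonic mean (`n` odd) of `w (n-1)`, `w (n-3)`. `T` is the map
`(w (n-3), w (n-2), w (n-1)) ↦ (w (n-1), w n, w (n+1))`, `n` odd.
-/

open Filter Topology Set
open Pool.Agent.N420.BS (basin sol)

namespace Pool.Agent.N551.ZD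

noncomputable section

abbrev V := ℝ × ℝ × ℝ

/-- Two steps. -/
def T (w : V) : V := (w.2.2, 2 * w.1 * w.2.2 / (w.1 + w.2.2),
  (2 * w.1 * w.2.2 / (w.1 + w.2.2) + w.2.1) / 2)

def Pos (w : V) : Prop := 0 < w.1 ∧ 0 < w.2.1 ∧ 0 < w.2.2

/-- The first `n` applications of `T` are regular. -/
def Reg (n : ℕ) (w : V) : Prop := ∀ i < n, (T^[i] w).1 + (T^[i] w).2.2 ≠ 0 ∧ (T^[i] w).2.2 ≠ 0

/-- `M w` is the limit of `T^[n] w`. -/
structure Good (M : V → ℝ) : Prop where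
  low : ∀ w m, Pos w → m ≤ w.1 → m ≤ w.2.1 → m ≤ w.2.2 → m ≤ M w
  inv : ∀ w, Pos w → M (T w) = M w
  cont : ContinuousOn M {w | Pos w}
  mem : ∀ w, Pos w → ∃ v ∈ basin 0 2, v (0 : Fin 3) = Real.sqrt 2 * w.1 / M w ∧
    v (1 : Fin 3) = Real.sqrt 2 * M w / w.2.1 ∧ v (2 : Fin 3) = Real.sqrt 2 * w.2.2 / M w

/-- LIM1: existence of the limit. `M w` is the limit of the first entry of `T^[n] w`. The sequence
`u 0 = w.1, u 1 = w.2.1, u 2 = w.2.2, u (2 n + 3) = (T^[n+1] w).2.1, ...` satisfies `MeanRec 1 3 u`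
of `Pool.Agent.N420.BS.Osc` and converges to a positive limit (`osc_tendsto` there). `T` is monotone
on `Pos` and homogeneous; so `(1/C) w ≤ w' ≤ C w` implies `M w / C ≤ M w' ≤ C M w`: continuity. -/
def S_LIM1 : Prop := ∃ M : V → ℝ, (∀ w, Pos w → 0 < M w ∧
  Tendsto (fun n => T^[n] w) atTop (𝓝 (M w, M w, M w))) ∧
  (∀ w m, Pos w → m ≤ w.1 → m ≤ w.2.1 → m ≤ w.2.2 → m ≤ M w) ∧
  (∀ w, Pos w → M (T w) = M w) ∧
  (∀ w (c : ℝ), Pos w → 0 < c → M (c • w) = c * M w)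

/-- LIM2: continuity (monotone and homogeneous, see LIM1). -/
def S_LIM2 : Prop := ∀ M : V → ℝ, (∀ w, Pos w → 0 < M w ∧
  Tendsto (fun n => T^[n] w) atTop (𝓝 (M w, M w, M w))) → ContinuousOn M {w | Pos w}

/-- LIM3: the vector `v = ![√2 w.1 / M, √2 M / w.2.1, √2 w.2.2 / M]` belongs to the basin if
`T^[n] w` tends to `(M, M, M)`: `sol 0 2 v (2 n) = √2 (T^[n] w).1 / M`,
`sol 0 2 v (2 n + 1) = √2 M / (T^[n] w).2.1`. -/
def S_LIM3 : Prop := ∀ (w : V) (M : ℝ), Pos w → 0 < M →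
  Tendsto (fun n => T^[n] w) atTop (𝓝 (M, M, M)) →
  ∃ v ∈ basin 0 2, v (0 : Fin 3) = Real.sqrt 2 * w.1 / M ∧
    v (1 : Fin 3) = Real.sqrt 2 * M / w.2.1 ∧ v (2 : Fin 3) = Real.sqrt 2 * w.2.2 / M

abbrev S := MvPolynomial (Fin 3) ℝ

def ev (f : S) (w : V) : ℝ := MvPolynomial.eval ![w.1, w.2.1, w.2.2] f

def evG (G : Polynomial S) (w : V) (Y : ℝ) : ℝ :=
  (G.map (MvPolynomial.eval ![w.1, w.2.1, w.2.2])).eval Y

/-- REL: with `N = P.totalDegree` replace the monomial `c X₀^a X₁^b X₂^d` of `P` by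
`C (c √2^(a+b+d) X₀^a X₁^(N-b) X₂^d) * Y^(N+b-a-d)`: the value at `(w, Y)` is `(w₁ Y)^N` times the
value of `P` at `(√2 w₀/Y, √2 Y/w₁, √2 w₂/Y)`; nonzero since the value at `Y = 1` has the distinct
monomials `X₀^a X₁^(N-b) X₂^d`. -/
def S_REL : Prop := ∀ P : MvPolynomial (Fin 3) ℝ, P ≠ 0 → ∃ G : Polynomial S, G ≠ 0 ∧
  ∀ (w : V) (Y : ℝ), Pos w → 0 < Y →
    MvPolynomial.eval ![Real.sqrt 2 * w.1 / Y, Real.sqrt 2 * Y / w.2.1, Real.sqrt 2 * w.2.2 / Y] P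
      = 0 → evG G w Y = 0

/-- SHIFT: clear denominators. By induction on `n` it suffices to treat `n = 1`, where
`e = (w.1 + w.2.2) ^ N`, `N` large. -/
def S_SHIFT : Prop := ∀ (n : ℕ) (G : Polynomial S), ∃ G' : Polynomial S,
  G'.natDegree ≤ G.natDegree ∧ ∀ w, Reg n w → ∃ e : ℝ, e ≠ 0 ∧
    ∀ i, ev (G'.coeff i) w = e * ev (G.coeff i) (T^[n] w)

/-- The relation and the covariance. -/
structure Rel (M : V → ℝ) (G : Polynomial S) : Prop where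
  ne : G ≠ 0
  rel : ∀ w, Pos w → evG G w (M w) = 0
  cov : ∀ n w Y, Reg n w →
    ev G.leadingCoeff (T^[n] w) * evG G w Y = ev G.leadingCoeff w * evG G (T^[n] w) Y

/-- MIN: take `G ≠ 0` of least degree `D` in `Y` with `evG G w (M w) = 0` on `Pos` and `G'` from
SHIFT; `C (G'.coeff D) * G - C (G.leadingCoeff) * G'` has smaller degree and vanishes at `M w`
(`w` in `Pos`, as `M (T^[n] w) = M w` and all of `Pos` is regular), hence is zero. -/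
def S_MIN : Prop := S_SHIFT → ∀ M : V → ℝ, (∀ w, Pos w → M (T w) = M w) →
  (∃ G : Polynomial S, G ≠ 0 ∧ ∀ w, Pos w → evG G w (M w) = 0) → ∃ G : Polynomial S, Rel M G

/-- GEN: if `ev G.leadingCoeff (T^[n] w) ≠ 0` this is `cov` with `Y = M (T^[n] w)`. In general there
are `w'` arbitrarily near to `w` with this property, because `T^[n]` has near `T^[n] w` the
continuous inverse `T⁻¹ (X, Y, Z) = (X Y / (2 X - Y), 2 Z - Y, X)` (for `w.1 + w.2.2 ≠ 0`,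
`w.2.2 ≠ 0`: `2 X - Y = 2 w.2.2 ^ 2 / (w.1 + w.2.2) ≠ 0`; if also `w.1 ≠ 0` ...; for `w.1 = 0` too)
and the zeros of the nonzero polynomial `G.leadingCoeff` contain no open set; `M` is continuous. -/
def S_GEN : Prop := ∀ (M : V → ℝ) (G : Polynomial S), ContinuousOn M {w | Pos w} → Rel M G →
  ∀ n w, Reg n w → Pos (T^[n] w) → evG G w (M (T^[n] w)) = 0

/-- The pattern on `[α, β]`. -/
structure Pat (c : ℝ → V) (α β : ℝ) : Prop where
  lt : α < β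
  cont : ContinuousOn c (Icc α β)
  pos1 : ∀ t ∈ Icc α β, 0 < (c t).1
  pos2 : ∀ t ∈ Icc α β, 0 < (c t).2.1
  zero : (c β).2.2 = 0
  neg : ∀ t ∈ Ico α β, (c t).2.2 < 0
  pole : (c α).1 + (c α).2.2 = 0
  sum : ∀ t ∈ Ioc α β, 0 < (c t).1 + (c t).2.2

/-- STEP (intermediate value theorem). Write `T (c t) = (a, b, d)`, `T (T (c t)) = (d, e, f)`,
`a = (c t).2.2 < 0`. On `(α, β]` `b` is continuous, `b ≤ 0`, `b < 0` on `(α, β)`, `b → -∞` at `α`;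
`d = (b + (c t).2.1) / 2` tends to `-∞` at `α` and `d β > 0`: let `ζ` be the largest zero of `d` in
`(α, β)`, so `d > 0` on `(ζ, β]`. `a + d < 0` at `ζ`, `> 0` at `β`: let `γ` be the smallest zero of
`a + d` in `(ζ, β)`. On `[ζ, γ)` `e = 2 a d / (a + d) ≥ 0` is continuous, `> 0` on `(ζ, γ)`, `→ +∞`
at `γ`; `f = (e + b) / 2` is `< 0` at `ζ` and tends to `+∞` at `γ`: let `β'` be the smallest zero of
`f` in `(ζ, γ)`. `d + f < 0` at `ζ`, `> 0` at `β'`: let `α'` be the largest zero of `d + f` in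
`(ζ, β')`. -/
def S_STEP : Prop := ∀ (c : ℝ → V) (α β : ℝ), Pat c α β → ∃ α' β', α < α' ∧ β' < β ∧
  Pat (fun t => T (T (c t))) α' β' ∧
  ∀ t ∈ Icc α' β', (c t).1 + (c t).2.2 ≠ 0 ∧ (c t).2.2 ≠ 0 ∧
    (T (c t)).1 + (T (c t)).2.2 ≠ 0 ∧ (T (c t)).2.2 ≠ 0

/-- PAT: iterate STEP, starting from `c t = (z, h, t)` on `[-z, 0]`; `α k` is the left end after `k`
steps, `n = 2 k`. -/
def S_PAT : Prop := S_STEP → ∀ z h : ℝ, 0 < z → 0 < h → ∃ α : ℕ → ℝ, StrictMono α ∧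
  ∀ k, ∃ n, Reg n (z, h, α k) ∧ (T^[n] (z, h, α k)).1 + (T^[n] (z, h, α k)).2.2 = 0 ∧
    0 < (T^[n] (z, h, α k)).1 ∧
    ∃ᶠ t in 𝓝 (α k), 0 < (T^[n] (z, h, t)).1 + (T^[n] (z, h, t)).2.2

/-- BLOW: near `(x, y, -x)`, `x > 0`, on the side `w.1 + w.2.2 > 0`: with `T w = (w.2.2, b, d)`,
`T (T w) = (d, e, f)`, `T (T (T w)) = (f, g, k)`: `b → -∞`, `d → -∞`, `e` near `- 2 x`, `f → -∞`,
`g → -∞`, `k → -∞`; and `T (-w) = - T w`. -/
def S_BLOW : Prop := ∀ (x y C : ℝ), 0 < x → ∀ᶠ w : V in 𝓝 (x, y, -x), 0 < w.1 + w.2.2 →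
  Reg 3 (-w) ∧ Pos (T^[3] (-w)) ∧ C ≤ (T^[3] (-w)).1 ∧ C ≤ (T^[3] (-w)).2.1 ∧ C ≤ (T^[3] (-w)).2.2

/-- LEAD: if `evG G w Y = 0` for points `w` arbitrarily near to `w₀` and arbitrarily large `Y`, then
the leading coefficient vanishes at `w₀`. -/
def S_LEAD : Prop := ∀ (G : Polynomial S) (w₀ : V), G ≠ 0 →
  (∀ C : ℝ, ∃ᶠ w in 𝓝 w₀, ∃ Y, C ≤ Y ∧ evG G w Y = 0) → ev G.leadingCoeff w₀ = 0

/-- END: `ev G.leadingCoeff (-(z, h, α k)) = 0` for all `z, h > 0` and all `k` (by GEN with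
`n + 3` steps from `-(z, h, t)`, PAT, BLOW, LEAD and `low`; `T^[n]` is continuous at regular points,
`T (-w) = - T w`), so the polynomial `G.leadingCoeff` is zero. -/
def S_END : Prop := S_STEP → S_PAT → S_BLOW → S_LEAD → ∀ (M : V → ℝ) (G : Polynomial S), Good M →
  Rel M G → (∀ n w, Reg n w → Pos (T^[n] w) → evG G w (M (T^[n] w)) = 0) → False

/-- The result. -/
def S_MAIN : Prop := ∀ P : MvPolynomial (Fin 3) ℝ,
  (∀ v ∈ basin 0 2, MvPolynomial.eval (v : Fin 3 → ℝ) P = 0) → P = 0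

theorem main (h1 : S_LIM1) (h2 : S_LIM2) (h3 : S_LIM3) (h4 : S_REL) (h5 : S_SHIFT) (h6 : S_MIN)
    (h7 : S_GEN) (h8 : S_STEP) (h9 : S_PAT) (h10 : S_BLOW) (h11 : S_LEAD) (h12 : S_END) :
    S_MAIN := by
  intro P hP
  by_contra hne
  obtain ⟨M, m1, m2, m3, m4⟩ := h1
  have hG : Good M := ⟨m2, m3, h2 M m1, fun w hw => h3 w (M w) hw (m1 w hw).1 (m1 w hw).2⟩
  obtain ⟨G, hG0, hG1⟩ := h4 P hne
  have hrel : ∀ w, Pos w → evG G w (M w) = 0 := by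
    intro w hw
    obtain ⟨v, hv, e0, e1, e2⟩ := hG.mem w hw
    refine hG1 w (M w) hw (m1 w hw).1 ?_
    have hvv : (v : Fin 3 → ℝ) = ![Real.sqrt 2 * w.1 / M w, Real.sqrt 2 * M w / w.2.1,
        Real.sqrt 2 * w.2.2 / M w] := by
      funext i
      fin_cases i
      · exact e0
      · exact e1
      · exact e2
    rw [← hvv]
    exact hP v hv
  obtain ⟨G', hG'⟩ := h6 h5 M m3 ⟨G, hG0, hrel⟩
  exact h12 h8 h9 h10 h11 M G' hG hG' (h7 M G' hG.cont hG')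

end

end Pool.Agent.N551.ZD
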