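import Mathlib
import Pool.Agent.N551.ZD.Stm

/-!
# Project ZD (helper551), leaf BLOW: elementary estimates (helper413)
-/

open Filter Topology Set

namespace Pool.Agent.N551.ZD

namespace BLOW_

theorem core (u : V) (C : ℝ) (h0 : u.1 + u.2.2 ≠ 0) (h3 : 0 < u.2.2)
    (hb : 4 * |C| + 2 + |u.2.1| ≤ 2 * u.1 * u.2.2 / (u.1 + u.2.2)) :
    Reg 3 u ∧ Pos (T^[3] u) ∧ C ≤ (T^[3] u).1 ∧ C ≤ (T^[3] u).2.1 ∧ C ≤ (T^[3] u).2.2 := by
  set b : ℝ := 2 * u.1 * u.2.2 / (u.1 + u.2.2) with hbd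
  have hC := abs_nonneg C
  have hC' := le_abs_self C
  have hu := abs_nonneg u.2.1
  have hu' := neg_abs_le u.2.1
  set d : ℝ := (b + u.2.1) / 2 with hd
  have hd1 : 2 * |C| + 1 ≤ d := by
    rw [hd]
    linarith
  have hd0 : 0 < d := by linarith
  set e : ℝ := 2 * u.2.2 * d / (u.2.2 + d) with he
  have he0 : 0 < e := by
    rw [he]
    positivity
  set f : ℝ := (e + b) / 2 with hf
  have hf1 : 2 * |C| + 1 ≤ f := by
    rw [hf]
    linarith
  have hf0 : 0 < f := by linarith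
  set g : ℝ := 2 * d * f / (d + f) with hg
  have hg1 : 2 * |C| + 1 ≤ g := by
    rw [hg, le_div_iff₀ (by linarith)]
    nlinarith
  have hg0 : 0 < g := by linarith
  have t1 : T u = (u.2.2, b, d) := rfl
  have t2 : T^[2] u = (d, e, f) := rfl
  have t3 : T^[3] u = (f, g, (g + e) / 2) := rfl
  refine ⟨?_, ?_, ?_, ?_, ?_⟩
  · intro i hi
    interval_cases i
    · exact ⟨h0, h3.ne'⟩
    · change (T u).1 + (T u).2.2 ≠ 0 ∧ (T u).2.2 ≠ 0
      rw [t1]
      exact ⟨(by linarith : 0 < u.2.2 + d).ne', hd0.ne'⟩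
    · rw [t2]
      exact ⟨(by linarith : 0 < d + f).ne', hf0.ne'⟩
  · rw [t3]
    exact ⟨hf0, hg0, (by linarith : 0 < (g + e) / 2)⟩
  · rw [t3]
    change C ≤ f
    linarith
  · rw [t3]
    change C ≤ g
    linarith
  · rw [t3]
    change C ≤ (g + e) / 2
    linarith

end BLOW_

theorem t_BLOW : S_BLOW := by
  intro x y C hx
  set K : ℝ := 4 * |C| + 2 + (|y| + 1) with hK
  have hK0 : 0 < K := by
    have := abs_nonneg C
    have := abs_nonneg y
    linarith
  have h1 : ∀ᶠ w : V in 𝓝 (x, y, -x), x / 2 < w.1 := by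
    have h : Tendsto (fun w : V => w.1) (𝓝 (x, y, -x)) (𝓝 x) :=
      (continuous_fst : Continuous fun w : V => w.1).tendsto (x, y, -x)
    exact h.eventually_const_lt (by linarith)
  have h2 : ∀ᶠ w : V in 𝓝 (x, y, -x), w.2.2 < -(x / 2) := by
    have h : Tendsto (fun w : V => w.2.2) (𝓝 (x, y, -x)) (𝓝 (-x)) :=
      (continuous_snd.comp continuous_snd : Continuous fun w : V => w.2.2).tendsto (x, y, -x)
    exact h.eventually_lt_const (by linarith)
  have h3 : ∀ᶠ w : V in 𝓝 (x, y, -x), |w.2.1| < |y| + 1 := by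
    have hc : Continuous fun w : V => |w.2.1| :=
      continuous_abs.comp (continuous_fst.comp continuous_snd)
    have h : Tendsto (fun w : V => |w.2.1|) (𝓝 (x, y, -x)) (𝓝 |y|) := hc.tendsto (x, y, -x)
    exact h.eventually_lt_const (by linarith)
  have h4 : ∀ᶠ w : V in 𝓝 (x, y, -x), w.1 + w.2.2 < x ^ 2 / (2 * K) := by
    have hc : Continuous fun w : V => w.1 + w.2.2 :=
      continuous_fst.add (continuous_snd.comp continuous_snd)
    have h : Tendsto (fun w : V => w.1 + w.2.2) (𝓝 (x, y, -x)) (𝓝 (x + -x)) :=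
      hc.tendsto (x, y, -x)
    refine h.eventually_lt_const ?_
    rw [add_neg_cancel]
    positivity
  filter_upwards [h1, h2, h3, h4] with w e1 e2 e3 e4 e5
  refine BLOW_.core (-w) C ?_ ?_ ?_
  · change -w.1 + -w.2.2 ≠ 0
    intro h
    linarith
  · change 0 < -w.2.2
    linarith
  · change 4 * |C| + 2 + |-w.2.1| ≤ 2 * -w.1 * -w.2.2 / (-w.1 + -w.2.2)
    rw [abs_neg]
    have e6 : 2 * -w.1 * -w.2.2 / (-w.1 + -w.2.2) = 2 * w.1 * -w.2.2 / (w.1 + w.2.2) := by
      have : -w.1 + -w.2.2 = -(w.1 + w.2.2) := by ring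
      rw [this, div_neg]
      ring
    rw [e6, le_div_iff₀ e5]
    have e7 : (w.1 + w.2.2) * K < x ^ 2 / 2 := by
      rw [lt_div_iff₀ (by positivity)] at e4
      linarith
    have e8 : 4 * |C| + 2 + |w.2.1| ≤ K := by
      rw [hK]
      linarith
    have e9 : (4 * |C| + 2 + |w.2.1|) * (w.1 + w.2.2) ≤ K * (w.1 + w.2.2) :=
      mul_le_mul_of_nonneg_right e8 e5.le
    have e10 : (x / 2) * (x / 2) ≤ w.1 * -w.2.2 :=
      mul_le_mul e1.le (by linarith) (by linarith) (by linarith)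
    nlinarith

end Pool.Agent.N551.ZD
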