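import Mathlib
import Pool.Agent.N551.ZD.Stm

/-! Project ZD (helper551), leaf END. Author: helper971. -/

open Filter Topology Set
open Pool.Agent.N420.BS (basin sol)

namespace Pool.Agent.N551.ZD

namespace END_

theorem T_neg (w : V) : T (-w) = -T w := by
  have h : 2 * (-w.1) * (-w.2.2) / (-w.1 + -w.2.2) = -(2 * w.1 * w.2.2 / (w.1 + w.2.2)) := by
    rw [← neg_add, div_neg]
    ring
  unfold T
  simp only [Prod.fst_neg, Prod.snd_neg, h]
  refine Prod.ext rfl (Prod.ext rfl ?_)
  show (-(2 * w.1 * w.2.2 / (w.1 + w.2.2)) + -w.2.1) / 2 =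
    -((2 * w.1 * w.2.2 / (w.1 + w.2.2) + w.2.1) / 2)
  ring

theorem iter_neg (n : ℕ) (w : V) : T^[n] (-w) = -T^[n] w := by
  induction n with
  | zero => rfl
  | succ n ih => rw [Function.iterate_succ_apply', ih, T_neg, Function.iterate_succ_apply']

theorem reg_neg (n : ℕ) (w : V) (h : Reg n w) : Reg n (-w) := by
  intro i hi
  rw [iter_neg]
  obtain ⟨h1, h2⟩ := h i hi
  constructor
  · show -(T^[i] w).1 + -(T^[i] w).2.2 ≠ 0
    rw [← neg_add]
    exact neg_ne_zero.2 h1
  · show -(T^[i] w).2.2 ≠ 0
    exact neg_ne_zero.2 h2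

theorem reg_add (n m : ℕ) (w : V) (h : Reg n w) (h' : Reg m (T^[n] w)) : Reg (n + m) w := by
  intro i hi
  rcases lt_or_ge i n with hin | hin
  · exact h i hin
  · obtain ⟨j, rfl⟩ := Nat.exists_eq_add_of_le hin
    have h3 := h' j (by omega)
    rw [← Function.iterate_add_apply, add_comm j n] at h3
    exact h3

theorem T_cont (w : V) (h : w.1 + w.2.2 ≠ 0) : ContinuousAt T w := by
  have h1 : ContinuousAt (fun w : V => w.1) w := continuous_fst.continuousAt
  have h2 : ContinuousAt (fun w : V => w.2.1) w := (continuous_fst.comp continuous_snd).continuousAt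
  have h3 : ContinuousAt (fun w : V => w.2.2) w := (continuous_snd.comp continuous_snd).continuousAt
  have h4 : ContinuousAt (fun w : V => 2 * w.1 * w.2.2 / (w.1 + w.2.2)) w :=
    ((continuousAt_const.mul h1).mul h3).div (h1.add h3) h
  exact h3.prodMk (h4.prodMk ((h4.add h2).div_const 2))

theorem iter_cont (n : ℕ) (w : V) (h : Reg n w) : ContinuousAt (T^[n]) w := by
  induction n with
  | zero => exact continuousAt_id
  | succ n ih =>
    have h1 := ih fun i hi => h i (by omega)
    have h2 := (h n (by omega)).1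
    rw [Function.iterate_succ']
    exact (T_cont _ h2).comp h1

theorem reg_ev (n : ℕ) (w : V) (h : Reg n w) : ∀ᶠ w' in 𝓝 w, Reg n w' := by
  induction n with
  | zero => exact Eventually.of_forall fun w' i hi => absurd hi (by omega)
  | succ n ih =>
    have h1 : Reg n w := fun i hi => h i (by omega)
    obtain ⟨h2, h3⟩ := h n (by omega)
    have hc := iter_cont n w h1
    have hc1 : ContinuousAt (fun w' => (T^[n] w').1 + (T^[n] w').2.2) w :=
      (continuous_fst.continuousAt.comp hc).add
        ((continuous_snd.comp continuous_snd).continuousAt.comp hc)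
    have hc2 : ContinuousAt (fun w' => (T^[n] w').2.2) w :=
      (continuous_snd.comp continuous_snd).continuousAt.comp hc
    filter_upwards [ih h1, hc1.eventually_ne h2, hc2.eventually_ne h3] with w' e1 e2 e3
    intro i hi
    rcases Nat.lt_succ_iff_lt_or_eq.1 hi with h4 | h4
    · exact e1 i h4
    · rw [h4]
      exact ⟨e2, e3⟩

theorem poly_zero (L : S) (hL : ∀ z h : ℝ, 0 < z → 0 < h → ∃ α : ℕ → ℝ, StrictMono α ∧
    ∀ k, ev L (-(z, h, α k)) = 0) : L = 0 := by
  have h1 : ∀ z h : ℝ, 0 < z → 0 < h → ∀ t : ℝ, MvPolynomial.eval ![-z, -h, t] L = 0 := by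
    intro z h hz hh t
    obtain ⟨α, hα, hα0⟩ := hL z h hz hh
    let P1 : Polynomial ℝ := MvPolynomial.aeval
      ![Polynomial.C (-z), Polynomial.C (-h), Polynomial.X] L
    have hP1 : ∀ u : ℝ, P1.eval u = MvPolynomial.eval ![-z, -h, u] L := by
      intro u
      have e1 : P1.eval u = Polynomial.aeval u P1 := by
        rw [Polynomial.coe_aeval_eq_eval]
      have e2 : MvPolynomial.eval ![-z, -h, u] L = MvPolynomial.aeval ![-z, -h, u] L := by
        rw [MvPolynomial.aeval_eq_eval]
      rw [e1, e2, MvPolynomial.comp_aeval_apply]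
      congr 2
      funext i
      fin_cases i <;> simp
    have h0 : P1 = 0 := by
      apply Polynomial.eq_zero_of_infinite_isRoot
      refine (Set.infinite_range_of_injective (f := fun k => -α k) ?_).mono ?_
      · intro a b hab
        exact hα.injective (neg_injective hab)
      · rintro _ ⟨k, rfl⟩
        show P1.eval (-α k) = 0
        rw [hP1]
        exact hα0 k
    rw [← hP1, h0, Polynomial.eval_zero]
  refine MvPolynomial.funext_set ![Iio 0, Iio 0, univ] ?_ ?_
  · intro i
    fin_cases i
    · exact Iio_infinite (0 : ℝ)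
    · exact Iio_infinite (0 : ℝ)
    · exact infinite_univ
  · intro x hx
    have hx0 : x 0 < 0 := hx 0 (mem_univ _)
    have hx1 : x 1 < 0 := hx 1 (mem_univ _)
    have h2 := h1 (-x 0) (-x 1) (by linarith) (by linarith) (x 2)
    have h3 : ![-(-x 0), -(-x 1), x 2] = x := by
      funext i
      fin_cases i <;> simp
    rw [h3] at h2
    rw [h2, map_zero]

end END_

open END_

theorem t_END : S_END := by
  intro hSTEP hPAT hBLOW hLEAD M G hGood hRel hGEN
  have hL : G.leadingCoeff = 0 := by
    apply poly_zero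
    intro z h hz hh
    obtain ⟨α, hα, hk⟩ := hPAT hSTEP z h hz hh
    refine ⟨α, hα, fun k => ?_⟩
    obtain ⟨n, hreg, hpole, hpos, hfreq⟩ := hk k
    apply hLEAD G _ hRel.ne
    intro C
    have hline : ContinuousAt (fun t : ℝ => ((z, h, t) : V)) (α k) :=
      (continuous_const.prodMk (continuous_const.prodMk continuous_id)).continuousAt
    have hpt : T^[n] (z, h, α k) =
        ((T^[n] (z, h, α k)).1, (T^[n] (z, h, α k)).2.1, -(T^[n] (z, h, α k)).1) := by
      refine Prod.ext rfl (Prod.ext rfl ?_)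
      show (T^[n] (z, h, α k)).2.2 = -(T^[n] (z, h, α k)).1
      linarith
    have hB := hBLOW (T^[n] (z, h, α k)).1 (T^[n] (z, h, α k)).2.1 C hpos
    rw [← hpt] at hB
    have hc : ContinuousAt (fun t : ℝ => T^[n] ((z, h, t) : V)) (α k) :=
      ContinuousAt.comp (g := T^[n]) (iter_cont n _ hreg) hline
    have hB' := hc.eventually hB
    have hR' := hline.eventually (reg_ev n _ hreg)
    have hF := hfreq.and_eventually (hB'.and hR')
    have hneg : Tendsto (fun t : ℝ => -((z, h, t) : V)) (𝓝 (α k)) (𝓝 (-(z, h, α k))) :=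
      hline.neg
    refine hneg.frequently (hF.mono ?_)
    rintro t ⟨hs, hb, hr⟩
    obtain ⟨b1, b2, b3, b4, b5⟩ := hb hs
    have e1 : T^[n] (-((z, h, t) : V)) = -T^[n] (z, h, t) := iter_neg n _
    have e2 : T^[n + 3] (-((z, h, t) : V)) = T^[3] (-T^[n] (z, h, t)) := by
      rw [add_comm, Function.iterate_add_apply, e1]
    refine ⟨M (T^[n + 3] (-((z, h, t) : V))), ?_, ?_⟩
    · rw [e2]
      exact hGood.low _ C b2 b3 b4 b5
    · refine hGEN (n + 3) _ ?_ ?_
      · refine reg_add n 3 _ (reg_neg n _ hr) ?_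
        rw [e1]
        exact b1
      · rw [e2]
        exact b2
  exact hRel.ne (Polynomial.leadingCoeff_eq_zero.1 hL)

end Pool.Agent.N551.ZD
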