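import Mathlib
import Pool.Agent.N551.ZD.Stm

/-!
# Project ZD, leaf GEN

A local inverse of `T^[n]`, and the relation `evG G w (M (T^[n] w)) = 0` (helper424).
-/

set_option autoImplicit false

open Filter Topology Set

namespace Pool.Agent.N551.ZD

namespace GEN_

/-- The inverse of `T`. -/
noncomputable def R (u : V) : V := (u.1 * u.2.1 / (2 * u.1 - u.2.1), 2 * u.2.2 - u.2.1, u.1)

theorem two_sub {w : V} (h1 : w.1 + w.2.2 ≠ 0) :
    2 * (T w).1 - (T w).2.1 = 2 * w.2.2 ^ 2 / (w.1 + w.2.2) := by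
  simp only [T]
  field_simp
  ring

theorem R_T {w : V} (h1 : w.1 + w.2.2 ≠ 0) (h2 : w.2.2 ≠ 0) : R (T w) = w := by
  have h3 := two_sub h1
  unfold R
  rw [h3]
  obtain ⟨a, b, c⟩ := w
  simp only [T] at *
  refine Prod.ext ?_ (Prod.ext ?_ ?_)
  · simp only
    field_simp
  · simp only
    ring
  · rfl

theorem R_sum {u : V} (_h1 : u.1 ≠ 0) (h2 : 2 * u.1 - u.2.1 ≠ 0) :
    (R u).1 + (R u).2.2 = 2 * u.1 ^ 2 / (2 * u.1 - u.2.1) := by
  simp only [R]
  rw [eq_div_iff h2, add_mul, div_mul_cancel₀ _ h2]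
  ring

theorem T_R {u : V} (h1 : u.1 ≠ 0) (h2 : 2 * u.1 - u.2.1 ≠ 0) : T (R u) = u := by
  have h3 := R_sum h1 h2
  unfold T
  rw [h3]
  obtain ⟨a, b, c⟩ := u
  simp only [R] at *
  have h4 : 2 * (a * b / (2 * a - b)) * a / (2 * a ^ 2 / (2 * a - b)) = b := by
    field_simp
  refine Prod.ext rfl (Prod.ext ?_ ?_)
  · exact h4
  · simp only
    rw [h4]
    ring

theorem R_cont {u : V} (h2 : 2 * u.1 - u.2.1 ≠ 0) : ContinuousAt R u := by
  unfold R
  refine ContinuousAt.prodMk (ContinuousAt.div ?_ ?_ h2) (ContinuousAt.prodMk ?_ ?_) <;> fun_prop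

theorem inv_ex (n : ℕ) : ∀ w : V, Reg n w → ∃ S : V → V, Tendsto S (𝓝 (T^[n] w)) (𝓝 w) ∧
    ∀ᶠ u in 𝓝 (T^[n] w), T^[n] (S u) = u ∧ Reg n (S u) := by
  induction n with
  | zero =>
    intro w _
    refine ⟨id, ?_, ?_⟩
    · simpa using tendsto_id
    · refine Eventually.of_forall fun u => ⟨rfl, ?_⟩
      intro i hi
      omega
  | succ n ih =>
    intro w hw
    obtain ⟨S, hS1, hS2⟩ := ih w fun i hi => hw i (by omega)
    obtain ⟨r1, r2⟩ := hw n (by omega)
    set v := T^[n] w with hv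
    have hT : T^[n + 1] w = T v := by rw [Function.iterate_succ_apply']
    rw [hT]
    have e1 : (T v).1 ≠ 0 := r2
    have e2 : 2 * (T v).1 - (T v).2.1 ≠ 0 := by
      rw [two_sub r1]
      positivity
    have hR : Tendsto R (𝓝 (T v)) (𝓝 v) := by
      have := R_cont e2
      unfold ContinuousAt at this
      rwa [R_T r1 r2] at this
    have c1 : ∀ᶠ u : V in 𝓝 (T v), u.1 ≠ 0 :=
      (continuous_fst.continuousAt (x := T v)).eventually_ne e1
    have c2 : ∀ᶠ u : V in 𝓝 (T v), 2 * u.1 - u.2.1 ≠ 0 := by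
      have : Continuous fun u : V => 2 * u.1 - u.2.1 := by fun_prop
      exact this.continuousAt.eventually_ne e2
    refine ⟨S ∘ R, hS1.comp hR, ?_⟩
    filter_upwards [c1, c2, hR.eventually hS2] with u k1 k2 k3
    obtain ⟨k3, k4⟩ := k3
    refine ⟨?_, ?_⟩
    · rw [Function.iterate_succ_apply', Function.comp_apply, k3, T_R k1 k2]
    · intro i hi
      rcases Nat.lt_succ_iff_lt_or_eq.1 hi with h | h
      · exact k4 i h
      · rw [h, Function.comp_apply, k3]
        refine ⟨?_, k1⟩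
        rw [R_sum k1 k2]
        positivity

theorem ev_cont (f : S) : Continuous (ev f) := by
  unfold ev
  refine (MvPolynomial.continuous_eval f).comp ?_
  refine continuous_pi fun i => ?_
  fin_cases i
  · exact continuous_fst
  · exact continuous_fst.comp continuous_snd
  · exact continuous_snd.comp continuous_snd

theorem evG_eq (G : Polynomial S) (w : V) (Y : ℝ) :
    evG G w Y = ∑ i ∈ Finset.range (G.natDegree + 1), ev (G.coeff i) w * Y ^ i := by
  unfold evG ev
  rw [Polynomial.eval_map, Polynomial.eval₂_eq_sum_range]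

theorem evG_cont (G : Polynomial S) : Continuous fun p : V × ℝ => evG G p.1 p.2 := by
  simp only [evG_eq]
  refine continuous_finsetSum _ fun i _ => ?_
  exact ((ev_cont _).comp continuous_fst).mul (continuous_snd.pow i)

/-- The zeros of a nonzero polynomial contain no open set. -/
theorem zero_of_eventually {f : S} {u : V} (h : ∀ᶠ v in 𝓝 u, ev f v = 0) : f = 0 := by
  obtain ⟨ε, hε, hb⟩ := Metric.eventually_nhds_iff.1 h
  have hI : ∀ i : Fin 3, (Ioo (![u.1, u.2.1, u.2.2] i - ε) (![u.1, u.2.1, u.2.2] i + ε)).Infinite :=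
    fun i => Ioo_infinite (by linarith)
  refine MvPolynomial.funext_set (fun i : Fin 3 => Ioo (![u.1, u.2.1, u.2.2] i - ε)
    (![u.1, u.2.1, u.2.2] i + ε)) hI ?_
  intro x hx
  have h0 := hx 0 (mem_univ _)
  have h1 := hx 1 (mem_univ _)
  have h2 := hx 2 (mem_univ _)
  simp at h0 h1 h2
  have h3 : dist ((x 0, x 1, x 2) : V) u < ε := by
    rw [Prod.dist_eq, Prod.dist_eq, Real.dist_eq, Real.dist_eq, Real.dist_eq]
    refine max_lt ?_ (max_lt ?_ ?_)
    · exact abs_lt.2 ⟨by linarith [h0.1], by linarith [h0.2]⟩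
    · exact abs_lt.2 ⟨by linarith [h1.1], by linarith [h1.2]⟩
    · exact abs_lt.2 ⟨by linarith [h2.1], by linarith [h2.2]⟩
  have h4 := hb h3
  unfold ev at h4
  have h5 : ![x 0, x 1, x 2] = x := by
    funext i
    fin_cases i <;> rfl
  simp only [h5] at h4
  rw [h4, map_zero]

theorem isOpen_pos : IsOpen {w : V | Pos w} := by
  unfold Pos
  refine (isOpen_lt continuous_const continuous_fst).inter
    ((isOpen_lt continuous_const (continuous_fst.comp continuous_snd)).inter
      (isOpen_lt continuous_const (continuous_snd.comp continuous_snd)))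

end GEN_

open GEN_ in
theorem t_GEN : S_GEN := by
  intro M G hM hG n w hw hp
  by_contra hne
  obtain ⟨S, hS1, hS2⟩ := inv_ex n w hw
  have hMc : ContinuousAt M (T^[n] w) := hM.continuousAt (isOpen_pos.mem_nhds hp)
  have h1 : Tendsto (fun u => evG G (S u) (M u)) (𝓝 (T^[n] w)) (𝓝 (evG G w (M (T^[n] w)))) :=
    ((evG_cont G).tendsto (w, M (T^[n] w))).comp (hS1.prodMk_nhds hMc)
  have h2 : ∀ᶠ u in 𝓝 (T^[n] w), evG G (S u) (M u) ≠ 0 := h1.eventually_ne hne
  have h3 : ∀ᶠ u in 𝓝 (T^[n] w), Pos u := isOpen_pos.mem_nhds hp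
  have h4 : ∀ᶠ u in 𝓝 (T^[n] w), ev G.leadingCoeff u = 0 := by
    filter_upwards [h2, h3, hS2] with u k1 k2 k3
    have k4 := hG.cov n (S u) (M u) k3.2
    rw [k3.1, hG.rel u k2, mul_zero] at k4
    exact (mul_eq_zero.1 k4).resolve_right k1
  exact hG.ne (Polynomial.leadingCoeff_eq_zero.1 (zero_of_eventually h4))

end Pool.Agent.N551.ZD
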