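import Mathlib
import Pool.Agent.N551.ZD.Stm

set_option autoImplicit false

/-!
# Project ZD (helper551): leaf LEAD (helper985)

The leading coefficient vanishes where a root tends to infinity.
-/

open Filter Topology

namespace Pool.Agent.N551.ZD

namespace LEAD_

theorem ev_cont (f : S) : Continuous (ev f) := by
  unfold ev
  refine (MvPolynomial.continuous_eval f).comp (continuous_pi fun i => ?_)
  fin_cases i
  · exact continuous_fst
  · exact continuous_fst.comp continuous_snd
  · exact continuous_snd.comp continuous_snd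

theorem evG_sum (G : Polynomial S) (w : V) (Y : ℝ) :
    evG G w Y = ∑ i ∈ Finset.range (G.natDegree + 1), ev (G.coeff i) w * Y ^ i := by
  unfold evG ev
  rw [Polynomial.eval_map, Polynomial.eval₂_eq_sum_range]

end LEAD_

theorem t_LEAD : S_LEAD := by
  intro G w₀ _ hfr
  by_contra hne
  have hpos : 0 < |ev G.leadingCoeff w₀| := abs_pos.2 hne
  set l : ℝ := |ev G.leadingCoeff w₀| with hl
  set K : ℝ := ∑ i ∈ Finset.range G.natDegree, (|ev (G.coeff i) w₀| + 1) with hK
  have hK0 : 0 ≤ K := Finset.sum_nonneg fun i _ => by positivity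
  have h1 : ∀ᶠ w in 𝓝 w₀, l / 2 < |ev G.leadingCoeff w| := by
    have hc : Continuous fun w => |ev G.leadingCoeff w| := (LEAD_.ev_cont _).abs
    exact hc.continuousAt.eventually (lt_mem_nhds (by show l / 2 < l; linarith))
  have h2 : ∀ᶠ w in 𝓝 w₀, ∀ i ∈ Finset.range G.natDegree,
      |ev (G.coeff i) w| < |ev (G.coeff i) w₀| + 1 := by
    rw [Filter.eventually_all_finset]
    intro i _
    have hc : Continuous fun w => |ev (G.coeff i) w| := (LEAD_.ev_cont _).abs
    exact hc.continuousAt.eventually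
      (gt_mem_nhds (by show |ev (G.coeff i) w₀| < |ev (G.coeff i) w₀| + 1; linarith))
  obtain ⟨w, ⟨Y, hY, hG⟩, hw1, hw2⟩ :=
    ((hfr (max 1 (2 * (K + 1) / l))).and_eventually (h1.and h2)).exists
  have hY1 : 1 ≤ Y := (le_max_left _ _).trans hY
  have hY0 : 0 < Y := one_pos.trans_le hY1
  have hY2 : 2 * (K + 1) / l ≤ Y := (le_max_right _ _).trans hY
  have hY3 : 2 * (K + 1) ≤ Y * l := (div_le_iff₀ hpos).1 hY2
  rw [LEAD_.evG_sum, Finset.sum_range_succ] at hG
  have hG1 : ev G.leadingCoeff w * Y ^ G.natDegree =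
      -∑ i ∈ Finset.range G.natDegree, ev (G.coeff i) w * Y ^ i := by
    have : ev (G.coeff G.natDegree) w = ev G.leadingCoeff w := rfl
    rw [this] at hG
    linarith
  have h3 : |ev G.leadingCoeff w| * Y ^ G.natDegree * Y ≤ K * Y ^ G.natDegree := by
    have e : |ev G.leadingCoeff w| * Y ^ G.natDegree =
        |∑ i ∈ Finset.range G.natDegree, ev (G.coeff i) w * Y ^ i| := by
      rw [← abs_neg (∑ i ∈ Finset.range G.natDegree, ev (G.coeff i) w * Y ^ i), ← hG1, abs_mul,
        abs_of_pos (pow_pos hY0 _)]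
    rw [e, hK, Finset.sum_mul]
    refine (mul_le_mul_of_nonneg_right (Finset.abs_sum_le_sum_abs _ _) hY0.le).trans ?_
    rw [Finset.sum_mul]
    refine Finset.sum_le_sum fun i hi => ?_
    rw [abs_mul, abs_of_pos (pow_pos hY0 i), mul_assoc, ← pow_succ]
    exact mul_le_mul (hw2 i hi).le (pow_le_pow_right₀ hY1 (Finset.mem_range.1 hi))
      (by positivity) (by positivity)
  have h4 : |ev G.leadingCoeff w| * Y ≤ K := by
    refine le_of_mul_le_mul_right ?_ (pow_pos hY0 G.natDegree)
    calc |ev G.leadingCoeff w| * Y * Y ^ G.natDegree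
        = |ev G.leadingCoeff w| * Y ^ G.natDegree * Y := by ring
      _ ≤ _ := h3
  nlinarith [mul_lt_mul_of_pos_right hw1 hY0]

end Pool.Agent.N551.ZD
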