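import Mathlib
import Pool.Agent.N551.ZD.Stm
import Pool.Agent.N420.BS.Osc

/-!
# Project ZD (helper551), part LIM1 (helper249): existence of the limit
-/

set_option autoImplicit false

open Filter Topology Set
open Pool.Agent.N420.BS (MeanRec osc_tendsto)

namespace Pool.Agent.N551.ZD

namespace LIM1_

theorem pos_T {w : V} (h : Pos w) : Pos (T w) := by
  obtain ⟨h1, h2, h3⟩ := h
  have hH : 0 < 2 * w.1 * w.2.2 / (w.1 + w.2.2) := by positivity
  exact ⟨h3, hH, by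
    change 0 < (2 * w.1 * w.2.2 / (w.1 + w.2.2) + w.2.1) / 2
    linarith⟩

theorem pos_iter {w : V} (h : Pos w) (n : ℕ) : Pos (T^[n] w) := by
  induction n with
  | zero => exact h
  | succ n ih => rw [Function.iterate_succ_apply']; exact pos_T ih

/-- the sequence -/
noncomputable def u (w : V) (n : ℕ) : ℝ :=
  if n % 2 = 0 then (T^[n / 2] w).1 else (T^[n / 2] w).2.1

theorem u_even (w : V) (k : ℕ) : u w (2 * k) = (T^[k] w).1 := by
  unfold u
  rw [if_pos (by omega), show 2 * k / 2 = k by omega]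

theorem u_odd (w : V) (k : ℕ) : u w (2 * k + 1) = (T^[k] w).2.1 := by
  unfold u
  rw [if_neg (by omega), show (2 * k + 1) / 2 = k by omega]

theorem u_even' (w : V) (k : ℕ) : u w (2 * k + 2) = (T^[k] w).2.2 := by
  rw [show 2 * k + 2 = 2 * (k + 1) by ring, u_even, Function.iterate_succ_apply']
  rfl

theorem rec_u {w : V} (h : Pos w) : MeanRec 1 3 (u w) := by
  intro n _ hn
  rcases Nat.even_or_odd' n with ⟨k, hk | hk⟩
  · obtain ⟨j, rfl⟩ : ∃ j, k = j + 2 := ⟨k - 2, by omega⟩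
    subst hk
    left
    have e1 : 2 * (j + 2) - 1 = 2 * (j + 1) + 1 := by omega
    have e2 : 2 * (j + 2) - 3 = 2 * j + 1 := by omega
    have e3 : 2 * (j + 2) = 2 * (j + 1) + 2 := by omega
    rw [e1, e2, u_odd, u_odd, e3, u_even', Function.iterate_succ_apply']
    rfl
  · obtain ⟨j, rfl⟩ : ∃ j, k = j + 1 := ⟨k - 1, by omega⟩
    subst hk
    right
    have e1 : 2 * (j + 1) + 1 - 1 = 2 * j + 2 := by omega
    have e2 : 2 * (j + 1) + 1 - 3 = 2 * j := by omega
    rw [e1, e2, u_odd, u_even', u_even, Function.iterate_succ_apply']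
    obtain ⟨h1, h2, h3⟩ := pos_iter h j
    change 2 * (T^[j] w).1 * (T^[j] w).2.2 / ((T^[j] w).1 + (T^[j] w).2.2) =
      2 / (1 / (T^[j] w).2.2 + 1 / (T^[j] w).1)
    have h4 : 1 / (T^[j] w).2.2 + 1 / (T^[j] w).1 =
        ((T^[j] w).1 + (T^[j] w).2.2) / ((T^[j] w).1 * (T^[j] w).2.2) := by
      field_simp
    rw [h4, div_div_eq_mul_div, mul_assoc]

theorem lim {w : V} (h : Pos w) :
    ∃ l : ℝ, 0 < l ∧ Tendsto (fun n => T^[n] w) atTop (𝓝 (l, l, l)) := by
  obtain ⟨l, hl, ht⟩ := osc_tendsto (rec_u h) one_pos (by norm_num) (by norm_num) (by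
    intro n hn
    have hn : n < 3 := hn
    interval_cases n
    · exact h.1
    · exact h.2.1
    · have := u_even' w 0
      simp only [mul_zero, zero_add] at this
      rw [this]
      exact h.2.2)
  refine ⟨l, hl, ?_⟩
  have t0 : Tendsto (fun n => u w (2 * n)) atTop (𝓝 l) :=
    ht.comp (tendsto_atTop_mono (fun n => by simp only [id_eq]; omega) tendsto_id)
  have t1 : Tendsto (fun n => u w (2 * n + 1)) atTop (𝓝 l) :=
    ht.comp (tendsto_atTop_mono (fun n => by simp only [id_eq]; omega) tendsto_id)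
  have t2 : Tendsto (fun n => u w (2 * n + 2)) atTop (𝓝 l) :=
    ht.comp (tendsto_atTop_mono (fun n => by simp only [id_eq]; omega) tendsto_id)
  refine (t0.prodMk_nhds (t1.prodMk_nhds t2)).congr fun n => ?_
  rw [u_even, u_odd, u_even']

theorem low_T {w : V} {m : ℝ} (hm : 0 < m) (h1 : m ≤ w.1) (h2 : m ≤ w.2.1) (h3 : m ≤ w.2.2) :
    m ≤ (T w).1 ∧ m ≤ (T w).2.1 ∧ m ≤ (T w).2.2 := by
  have hH : m ≤ 2 * w.1 * w.2.2 / (w.1 + w.2.2) := by
    rw [le_div_iff₀ (by linarith)]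
    nlinarith
  refine ⟨h3, hH, ?_⟩
  change m ≤ (2 * w.1 * w.2.2 / (w.1 + w.2.2) + w.2.1) / 2
  linarith

theorem low_iter {w : V} {m : ℝ} (hm : 0 < m) (h1 : m ≤ w.1) (h2 : m ≤ w.2.1) (h3 : m ≤ w.2.2)
    (n : ℕ) : m ≤ (T^[n] w).1 ∧ m ≤ (T^[n] w).2.1 ∧ m ≤ (T^[n] w).2.2 := by
  induction n with
  | zero => exact ⟨h1, h2, h3⟩
  | succ n ih => rw [Function.iterate_succ_apply']; exact low_T hm ih.1 ih.2.1 ih.2.2

theorem T_smul {w : V} (h : Pos w) {c : ℝ} (hc : 0 < c) : T (c • w) = c • T w := by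
  obtain ⟨h1, h2, h3⟩ := h
  have hs : w.1 + w.2.2 ≠ 0 := by linarith
  have e : 2 * (c * w.1) * (c * w.2.2) / (c * w.1 + c * w.2.2) =
      c * (2 * w.1 * w.2.2 / (w.1 + w.2.2)) := by
    have hs2 : c * w.1 + c * w.2.2 = c * (w.1 + w.2.2) := by ring
    rw [hs2]
    field_simp
  refine Prod.ext rfl (Prod.ext e ?_)
  change (2 * (c * w.1) * (c * w.2.2) / (c * w.1 + c * w.2.2) + c * w.2.1) / 2 =
    c * ((2 * w.1 * w.2.2 / (w.1 + w.2.2) + w.2.1) / 2)
  rw [e]
  ring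

theorem iter_smul {w : V} (h : Pos w) {c : ℝ} (hc : 0 < c) (n : ℕ) :
    T^[n] (c • w) = c • T^[n] w := by
  induction n with
  | zero => rfl
  | succ n ih =>
    rw [Function.iterate_succ_apply', Function.iterate_succ_apply', ih, T_smul (pos_iter h n) hc]

end LIM1_

open LIM1_

theorem t_LIM1 : S_LIM1 := by
  have hex : ∀ w : V, ∃ l : ℝ, Pos w → 0 < l ∧ Tendsto (fun n => T^[n] w) atTop (𝓝 (l, l, l)) := by
    intro w
    by_cases h : Pos w
    · obtain ⟨l, hl, ht⟩ := lim h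
      exact ⟨l, fun _ => ⟨hl, ht⟩⟩
    · exact ⟨0, fun h' => absurd h' h⟩
  choose M hM using hex
  have h1 : ∀ w, Pos w → Tendsto (fun n => (T^[n] w).1) atTop (𝓝 (M w)) := fun w hw =>
    (continuous_fst.tendsto _).comp (hM w hw).2
  refine ⟨M, hM, ?_, ?_, ?_⟩
  · intro w m hw a1 a2 a3
    rcases le_or_gt m 0 with hm | hm
    · exact hm.trans (hM w hw).1.le
    · exact ge_of_tendsto' (h1 w hw) fun n => (low_iter hm a1 a2 a3 n).1
  · intro w hw
    have h2 := h1 (T w) (pos_T hw)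
    have h3 := (h1 w hw).comp (tendsto_add_atTop_nat 1)
    refine tendsto_nhds_unique h2 (h3.congr fun n => ?_)
    change (T^[n + 1] w).1 = _
    rw [Function.iterate_succ_apply]
  · intro w c hw hc
    have hcw : Pos (c • w) := ⟨mul_pos hc hw.1, mul_pos hc hw.2.1, mul_pos hc hw.2.2⟩
    have h2 := h1 (c • w) hcw
    have h3 := (h1 w hw).const_mul c
    refine tendsto_nhds_unique h2 (h3.congr fun n => ?_)
    rw [iter_smul hw hc n]
    rfl

end Pool.Agent.N551.ZD
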