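import Pool.Agent.N551.ZD.Stm

/-!
# LIM2: continuity of the limit (monotone and homogeneous)
-/

open Filter Topology Set

namespace Pool.Agent.N551.ZD.LIM2_

open Pool.Agent.N551.ZD

/-- componentwise comparison -/
def Le3 (w v : V) : Prop := w.1 ≤ v.1 ∧ w.2.1 ≤ v.2.1 ∧ w.2.2 ≤ v.2.2

/-- multiplication by a number -/
def sc (c : ℝ) (w : V) : V := (c * w.1, c * w.2.1, c * w.2.2)

lemma pos_T {w : V} (hw : Pos w) : Pos (T w) := by
  obtain ⟨h1, h2, h3⟩ := hw
  unfold T Pos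
  exact ⟨h3, by positivity, by positivity⟩

lemma hm_mono {a b a' b' : ℝ} (ha : 0 < a) (hb : 0 < b) (h1 : a ≤ a') (h2 : b ≤ b') :
    2 * a * b / (a + b) ≤ 2 * a' * b' / (a' + b') := by
  have ha' : 0 < a' := ha.trans_le h1
  have hb' : 0 < b' := hb.trans_le h2
  rw [div_le_div_iff₀ (by positivity) (by positivity)]
  have e1 : 0 ≤ a * a' * (b' - b) := mul_nonneg (by positivity) (sub_nonneg.2 h2)
  have e2 : 0 ≤ b * b' * (a' - a) := mul_nonneg (by positivity) (sub_nonneg.2 h1)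
  nlinarith

lemma T_mono {w v : V} (hw : Pos w) (h : Le3 w v) : Le3 (T w) (T v) := by
  obtain ⟨h1, h2, h3⟩ := hw
  obtain ⟨e1, e2, e3⟩ := h
  have h4 := hm_mono h1 h3 e1 e3
  refine ⟨e3, h4, ?_⟩
  show (2 * w.1 * w.2.2 / (w.1 + w.2.2) + w.2.1) / 2 ≤
    (2 * v.1 * v.2.2 / (v.1 + v.2.2) + v.2.1) / 2
  linarith

lemma T_sc {c : ℝ} (hc : 0 < c) {w : V} (hw : Pos w) : T (sc c w) = sc c (T w) := by
  obtain ⟨h1, h2, h3⟩ := hw
  have hs : w.1 + w.2.2 ≠ 0 := by positivity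
  have e : 2 * (c * w.1) * (c * w.2.2) / (c * w.1 + c * w.2.2) =
      c * (2 * w.1 * w.2.2 / (w.1 + w.2.2)) := by
    rw [← mul_add]
    field_simp
  unfold T sc
  refine Prod.ext rfl (Prod.ext e ?_)
  show (2 * (c * w.1) * (c * w.2.2) / (c * w.1 + c * w.2.2) + c * w.2.1) / 2 =
    c * ((2 * w.1 * w.2.2 / (w.1 + w.2.2) + w.2.1) / 2)
  rw [e]
  ring

lemma pos_iter {w : V} (hw : Pos w) (n : ℕ) : Pos (T^[n] w) := by
  induction n with
  | zero => exact hw
  | succ n ih => rw [Function.iterate_succ_apply']; exact pos_T ih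

lemma iter_mono {w v : V} (hw : Pos w) (h : Le3 w v) (n : ℕ) : Le3 (T^[n] w) (T^[n] v) := by
  induction n with
  | zero => exact h
  | succ n ih =>
    rw [Function.iterate_succ_apply', Function.iterate_succ_apply']
    exact T_mono (pos_iter hw n) ih

lemma iter_sc {c : ℝ} (hc : 0 < c) {w : V} (hw : Pos w) (n : ℕ) :
    T^[n] (sc c w) = sc c (T^[n] w) := by
  induction n with
  | zero => rfl
  | succ n ih =>
    rw [Function.iterate_succ_apply', Function.iterate_succ_apply', ih, T_sc hc (pos_iter hw n)]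

lemma pos_sc {c : ℝ} (hc : 0 < c) {w : V} (hw : Pos w) : Pos (sc c w) :=
  ⟨mul_pos hc hw.1, mul_pos hc hw.2.1, mul_pos hc hw.2.2⟩

/-- The comparison of the limits. -/
lemma lim_le {M : V → ℝ} (hM : ∀ w, Pos w → 0 < M w ∧
    Tendsto (fun n => T^[n] w) atTop (𝓝 (M w, M w, M w))) {w v : V} (hw : Pos w) (hv : Pos v)
    {c : ℝ} (hc : 0 < c) (h : Le3 w (sc c v)) : M w ≤ c * M v := by
  have h1 : Tendsto (fun n => (T^[n] w).1) atTop (𝓝 (M w)) :=
    (continuous_fst.tendsto _).comp (hM w hw).2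
  have h2 : Tendsto (fun n => (T^[n] v).1) atTop (𝓝 (M v)) :=
    (continuous_fst.tendsto _).comp (hM v hv).2
  refine le_of_tendsto_of_tendsto' h1 (h2.const_mul c) (fun n => ?_)
  have h3 := (iter_mono hw h n).1
  rw [iter_sc hc hv] at h3
  exact h3

end Pool.Agent.N551.ZD.LIM2_

namespace Pool.Agent.N551.ZD

open Pool.Agent.N551.ZD.LIM2_

theorem t_LIM2 : S_LIM2 := by
  intro M hM w hw
  have hMw := (hM w hw).1
  -- the bounds near `w`
  have key : ∀ c : ℝ, 1 < c → ∀ᶠ v in 𝓝[{w | Pos w}] w, M v ≤ c * M w ∧ M w ≤ c * M v := by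
    intro c hc
    have hc0 : 0 < c := by linarith
    have ev : ∀ f : V → ℝ, Continuous f → 0 < f w →
        ∀ᶠ v in 𝓝 w, f v < c * f w ∧ f w < c * f v := by
      intro f hf hfw
      have h1 : ∀ᶠ v in 𝓝 w, f v < c * f w :=
        (hf.tendsto w).eventually (gt_mem_nhds (by nlinarith))
      have h2 : ∀ᶠ v in 𝓝 w, f w < c * f v :=
        ((hf.tendsto w).const_mul c).eventually (lt_mem_nhds (by nlinarith))
      exact h1.and h2
    have e1 := ev (fun v => v.1) continuous_fst hw.1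
    have e2 := ev (fun v => v.2.1) (continuous_fst.comp continuous_snd) hw.2.1
    have e3 := ev (fun v => v.2.2) (continuous_snd.comp continuous_snd) hw.2.2
    have e4 := (e1.and (e2.and e3)).filter_mono (nhdsWithin_le_nhds (s := {w | Pos w}))
    filter_upwards [e4, self_mem_nhdsWithin] with v hv hvp
    obtain ⟨⟨a1, a2⟩, ⟨b1, b2⟩, ⟨c1, c2⟩⟩ := hv
    exact ⟨lim_le hM hvp hw hc0 ⟨a1.le, b1.le, c1.le⟩,
      lim_le hM hw hvp hc0 ⟨a2.le, b2.le, c2.le⟩⟩
  show Tendsto M (𝓝[{w | Pos w}] w) (𝓝 (M w))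
  rw [tendsto_order]
  constructor
  · intro a ha
    -- choose `c` with `a * c < M w`
    rcases le_or_gt a 0 with h0 | h0
    · filter_upwards [self_mem_nhdsWithin] with v hv
      exact h0.trans_lt (hM v hv).1
    · obtain ⟨c, hc1, hc2⟩ := exists_between ((one_lt_div h0).2 ha)
      filter_upwards [key c hc1] with v hv
      have h3 := hv.2
      rw [lt_div_iff₀ h0] at hc2
      have hc0 : 0 < c := by linarith
      nlinarith
  · intro a ha
    obtain ⟨c, hc1, hc2⟩ := exists_between ((one_lt_div hMw).2 ha)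
    filter_upwards [key c hc1] with v hv
    rw [lt_div_iff₀ hMw] at hc2
    exact hv.1.trans_lt hc2

end Pool.Agent.N551.ZD
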