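import Mathlib
import Pool.Agent.N551.ZD.Stm

/-!
# ZD/LIM3: basin membership

`sol 0 2 v (2 n) = √2 (T^[n] w).1 / M` and `sol 0 2 v (2 n + 1) = √2 M / (T^[n] w).2.1`.
-/

open Filter Topology Set
open Pool.Agent.N420.BS (basin sol)

namespace Pool.Agent.N551.ZD

noncomputable section

namespace LIM3_

lemma sol_init {v : Fin (max 0 2 + 1) → ℝ} {n : ℕ} (h : n < max 0 2 + 1) :
    sol 0 2 v n = v ⟨n, h⟩ := by
  rw [sol, dif_pos h]

lemma sol_rec (v : Fin (max 0 2 + 1) → ℝ) (n : ℕ) :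
    sol 0 2 v (n + 3) = 1 / sol 0 2 v (n + 2) + 1 / sol 0 2 v n := by
  have h : ¬ n + 3 < max 0 2 + 1 := by omega
  rw [sol, dif_neg h]
  have e1 : n + 3 - 1 - 0 = n + 2 := by omega
  have e2 : n + 3 - 1 - 2 = n := by omega
  rw [e1, e2]

lemma T_pos {w : V} (hw : Pos w) : Pos (T w) := by
  obtain ⟨h1, h2, h3⟩ := hw
  refine ⟨h3, ?_, ?_⟩
  · simp only [T]; positivity
  · simp only [T]; positivity

lemma iter_pos {w : V} (hw : Pos w) (n : ℕ) : Pos (T^[n] w) := by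
  induction n with
  | zero => exact hw
  | succ n ih => rw [Function.iterate_succ_apply']; exact T_pos ih

lemma step {s a c M : ℝ} (hs : s * s = 2) (hs0 : 0 < s) (ha : 0 < a) (hc : 0 < c)
    (hM : 0 < M) : 1 / (s * c / M) + 1 / (s * a / M) = s * M / (2 * a * c / (a + c)) := by
  have h1 : a + c ≠ 0 := by positivity
  have e : s * M / (2 * a * c / (a + c)) = s * M * (a + c) / (s * s * a * c) := by
    rw [hs]; field_simp
  rw [e]
  field_simp
  try ring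

lemma step2 {s b b' M : ℝ} (hs : s * s = 2) (hs0 : 0 < s) (hb : 0 < b) (hb' : 0 < b')
    (hM : 0 < M) : 1 / (s * M / b') + 1 / (s * M / b) = s * ((b' + b) / 2) / M := by
  have e : s * ((b' + b) / 2) / M = s * (b' + b) / (s * s * M) := by
    rw [hs]; field_simp
  rw [e]
  field_simp

lemma key {w : V} {M : ℝ} (hw : Pos w) (hM : 0 < M) (v : Fin (max 0 2 + 1) → ℝ)
    (v0 : sol 0 2 v 0 = Real.sqrt 2 * w.1 / M)
    (v1 : sol 0 2 v 1 = Real.sqrt 2 * M / w.2.1)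
    (v2 : sol 0 2 v 2 = Real.sqrt 2 * w.2.2 / M) (n : ℕ) :
    sol 0 2 v (2 * n) = Real.sqrt 2 * (T^[n] w).1 / M ∧
    sol 0 2 v (2 * n + 1) = Real.sqrt 2 * M / (T^[n] w).2.1 ∧
    sol 0 2 v (2 * n + 2) = Real.sqrt 2 * (T^[n] w).2.2 / M := by
  have hs : Real.sqrt 2 * Real.sqrt 2 = 2 := Real.mul_self_sqrt (by norm_num)
  have hs0 : 0 < Real.sqrt 2 := Real.sqrt_pos.2 (by norm_num)
  induction n with
  | zero => exact ⟨v0, v1, v2⟩
  | succ n ih =>
    obtain ⟨h0, h1, h2⟩ := ih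
    have hp := iter_pos hw n
    rw [Function.iterate_succ_apply']
    set u := T^[n] w with hu
    obtain ⟨p1, p2, p3⟩ := hp
    have q : 0 < 2 * u.1 * u.2.2 / (u.1 + u.2.2) := by positivity
    have e3 : sol 0 2 v (2 * n + 3) = Real.sqrt 2 * M / (2 * u.1 * u.2.2 / (u.1 + u.2.2)) := by
      rw [sol_rec, h2, h0]
      exact step hs hs0 p1 p3 hM
    have e4 : sol 0 2 v (2 * n + 1 + 3)
        = Real.sqrt 2 * ((2 * u.1 * u.2.2 / (u.1 + u.2.2) + u.2.1) / 2) / M := by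
      rw [sol_rec, h1, show 2 * n + 1 + 2 = 2 * n + 3 by ring, e3]
      exact step2 hs hs0 p2 q hM
    refine ⟨?_, ?_, ?_⟩
    · rw [show 2 * (n + 1) = 2 * n + 2 by ring, h2]; rfl
    · rw [show 2 * (n + 1) + 1 = 2 * n + 3 by ring, e3]; rfl
    · rw [show 2 * (n + 1) + 2 = 2 * n + 1 + 3 by ring, e4]; rfl

lemma even_odd {f : ℕ → ℝ} {l : ℝ} (h0 : Tendsto (fun n => f (2 * n)) atTop (𝓝 l))
    (h1 : Tendsto (fun n => f (2 * n + 1)) atTop (𝓝 l)) : Tendsto f atTop (𝓝 l) := by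
  rw [Metric.tendsto_atTop] at h0 h1 ⊢
  intro ε hε
  obtain ⟨N0, hN0⟩ := h0 ε hε
  obtain ⟨N1, hN1⟩ := h1 ε hε
  refine ⟨2 * N0 + 2 * N1 + 1, fun n hn => ?_⟩
  rcases Nat.even_or_odd' n with ⟨m, hm | hm⟩
  · subst hm
    exact hN0 m (by omega)
  · subst hm
    exact hN1 m (by omega)

end LIM3_

open LIM3_ in
theorem t_LIM3 : S_LIM3 := by
  intro w M hw hM hlim
  have hs : Real.sqrt 2 * Real.sqrt 2 = 2 := Real.mul_self_sqrt (by norm_num)
  have hs0 : 0 < Real.sqrt 2 := Real.sqrt_pos.2 (by norm_num)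
  let v : Fin (max 0 2 + 1) → ℝ :=
    (![Real.sqrt 2 * w.1 / M, Real.sqrt 2 * M / w.2.1, Real.sqrt 2 * w.2.2 / M] : Fin 3 → ℝ)
  have w1 := hw.1
  have w2 := hw.2.1
  have w3 := hw.2.2
  have v0 : sol 0 2 v 0 = Real.sqrt 2 * w.1 / M := by
    rw [LIM3_.sol_init (by norm_num)]; rfl
  have v1 : sol 0 2 v 1 = Real.sqrt 2 * M / w.2.1 := by
    rw [LIM3_.sol_init (by norm_num)]; rfl
  have v2 : sol 0 2 v 2 = Real.sqrt 2 * w.2.2 / M := by
    rw [LIM3_.sol_init (by norm_num)]; rfl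
  have hkey := LIM3_.key hw hM v v0 v1 v2
  have l1 : Tendsto (fun n => (T^[n] w).1) atTop (𝓝 M) :=
    (continuous_fst.tendsto _).comp hlim
  have l2 : Tendsto (fun n => (T^[n] w).2.1) atTop (𝓝 M) :=
    ((continuous_fst.comp continuous_snd).tendsto _).comp hlim
  refine ⟨v, ⟨?_, ?_⟩, rfl, rfl, rfl⟩
  · intro i
    have q0 : 0 < Real.sqrt 2 * w.1 / M := by positivity
    have q1 : 0 < Real.sqrt 2 * M / w.2.1 := by positivity
    have q2 : 0 < Real.sqrt 2 * w.2.2 / M := by positivity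
    have : ∀ i : Fin 3, 0 < (![Real.sqrt 2 * w.1 / M, Real.sqrt 2 * M / w.2.1,
        Real.sqrt 2 * w.2.2 / M] : Fin 3 → ℝ) i
      | 0 => q0
      | 1 => q1
      | 2 => q2
    exact this i
  · apply LIM3_.even_odd
    · have e : (fun n => sol 0 2 v (2 * n)) = fun n => Real.sqrt 2 * (T^[n] w).1 / M := by
        funext n; exact (hkey n).1
      rw [e]
      have := (l1.const_mul (Real.sqrt 2)).div_const M
      rwa [mul_div_assoc, div_self hM.ne', mul_one] at this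
    · have e : (fun n => sol 0 2 v (2 * n + 1)) = fun n => Real.sqrt 2 * M / (T^[n] w).2.1 := by
        funext n; exact (hkey n).2.1
      rw [e]
      have := (tendsto_const_nhds (x := Real.sqrt 2 * M) (f := atTop (α := ℕ))).div l2 hM.ne'
      rwa [mul_div_assoc, div_self hM.ne', mul_one] at this

end

end Pool.Agent.N551.ZD
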