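import Mathlib
import Pool.Agent.N551.ZD.Stm

/-!
# Project ZD (helper551), part MIN: the relation of least degree is covariant (helper787)
-/

open Filter Topology Set

namespace Pool.Agent.N551.ZD

noncomputable section

namespace MIN_

theorem pos_T {w : V} (h : Pos w) : Pos (T w) := by
  obtain ⟨h1, h2, h3⟩ := h
  refine ⟨h3, ?_, ?_⟩
  · show 0 < 2 * w.1 * w.2.2 / (w.1 + w.2.2)
    positivity
  · show 0 < (2 * w.1 * w.2.2 / (w.1 + w.2.2) + w.2.1) / 2
    positivity

theorem pos_iter {w : V} (h : Pos w) (n : ℕ) : Pos (T^[n] w) := by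
  induction n with
  | zero => exact h
  | succ n ih => rw [Function.iterate_succ_apply']; exact pos_T ih

theorem reg_of_pos {w : V} (h : Pos w) (n : ℕ) : Reg n w := by
  intro i _
  obtain ⟨h1, _, h3⟩ := pos_iter h i
  exact ⟨(add_pos h1 h3).ne', h3.ne'⟩

theorem inv_iter {M : V → ℝ} (hM : ∀ w, Pos w → M (T w) = M w) {w : V} (h : Pos w) (n : ℕ) :
    M (T^[n] w) = M w := by
  induction n with
  | zero => rfl
  | succ n ih => rw [Function.iterate_succ_apply', hM _ (pos_iter h n), ih]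

theorem evG_sum (G : Polynomial S) (D : ℕ) (hD : G.natDegree ≤ D) (w : V) (Y : ℝ) :
    evG G w Y = ∑ i ∈ Finset.range (D + 1), ev (G.coeff i) w * Y ^ i := by
  unfold evG
  rw [Polynomial.eval_eq_sum_range' (n := D + 1)
    (lt_of_le_of_lt (Polynomial.natDegree_map_le.trans hD) (Nat.lt_succ_self D))]
  refine Finset.sum_congr rfl fun i _ => ?_
  rw [Polynomial.coeff_map]
  rfl

end MIN_

open MIN_

theorem t_MIN : S_MIN := by
  classical
  intro hS M hM hex
  have hex' : ∃ D : ℕ, ∃ G : Polynomial S, G ≠ 0 ∧ (∀ w, Pos w → evG G w (M w) = 0) ∧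
      G.natDegree = D := by
    obtain ⟨G, h1, h2⟩ := hex
    exact ⟨G.natDegree, G, h1, h2, rfl⟩
  obtain ⟨G, hG0, hG1, hGD⟩ := Nat.find_spec hex'
  set D := Nat.find hex' with hD
  refine ⟨G, hG0, hG1, ?_⟩
  intro n w Y hw
  obtain ⟨G', hG'D, hG'⟩ := hS n G
  have hlc : G.coeff D = G.leadingCoeff := by rw [← hGD]; rfl
  -- the difference
  obtain ⟨H, hH⟩ : ∃ H : Polynomial S,
      H = Polynomial.C (G'.coeff D) * G - Polynomial.C G.leadingCoeff * G' := ⟨_, rfl⟩
  have hGD' : G.natDegree ≤ D := hGD.le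
  have hG'D' : G'.natDegree ≤ D := hG'D.trans hGD'
  have hHD : H.natDegree ≤ D := by
    rw [hH]
    refine (Polynomial.natDegree_sub_le _ _).trans (max_le ?_ ?_)
    · exact (Polynomial.natDegree_C_mul_le _ _).trans hGD'
    · exact (Polynomial.natDegree_C_mul_le _ _).trans hG'D'
  have hHc : H.coeff D = 0 := by
    rw [hH, Polynomial.coeff_sub, Polynomial.coeff_C_mul, Polynomial.coeff_C_mul, hlc, mul_comm,
      sub_self]
  have hev : ∀ (w : V) (Y : ℝ), evG H w Y =
      ev (G'.coeff D) w * evG G w Y - ev G.leadingCoeff w * evG G' w Y := by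
    intro w Y
    rw [hH]
    unfold evG ev
    rw [Polynomial.map_sub, Polynomial.map_mul, Polynomial.map_mul, Polynomial.map_C,
      Polynomial.map_C, Polynomial.eval_sub, Polynomial.eval_mul, Polynomial.eval_mul,
      Polynomial.eval_C, Polynomial.eval_C]
  have hG'ev : ∀ (w : V) (Y : ℝ), Reg n w → ∃ e : ℝ, e ≠ 0 ∧
      ev (G'.coeff D) w = e * ev G.leadingCoeff (T^[n] w) ∧
      evG G' w Y = e * evG G (T^[n] w) Y := by
    intro w Y hw
    obtain ⟨e, he, h1⟩ := hG' w hw
    refine ⟨e, he, ?_, ?_⟩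
    · rw [h1 D, hlc]
    · rw [evG_sum G' D hG'D', evG_sum G D hGD', Finset.mul_sum]
      refine Finset.sum_congr rfl fun i _ => ?_
      rw [h1 i, mul_assoc]
  have hH0 : H = 0 := by
    by_contra hne
    have hlt : H.natDegree < D := by
      refine lt_of_le_of_ne hHD fun h => ?_
      rw [← h] at hHc
      exact hne (Polynomial.leadingCoeff_eq_zero.1 hHc)
    refine Nat.find_min hex' hlt ⟨H, hne, fun w hw => ?_, rfl⟩
    obtain ⟨e, _, _, h2⟩ := hG'ev w (M w) (reg_of_pos hw n)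
    rw [hev, hG1 w hw, mul_zero, h2]
    have h3 := hG1 (T^[n] w) (pos_iter hw n)
    rw [inv_iter hM hw n] at h3
    rw [h3, mul_zero, mul_zero, sub_zero]
  obtain ⟨e, he, h1, h2⟩ := hG'ev w Y hw
  have h3 := hev w Y
  rw [h1, h2, hH0] at h3
  have h4 : evG 0 w Y = 0 := by
    unfold evG
    rw [Polynomial.map_zero, Polynomial.eval_zero]
  rw [h4] at h3
  have h5 : e * (ev G.leadingCoeff (T^[n] w) * evG G w Y) =
      e * (ev G.leadingCoeff w * evG G (T^[n] w) Y) := by linarith
  exact mul_left_cancel₀ he h5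

end

end Pool.Agent.N551.ZD
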