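import Mathlib
import Pool.Agent.N551.ZD.Stm

/-!
Leaf PAT of project ZD: iterate STEP.
-/

open Filter Topology Set

namespace Pool.Agent.N551.ZD

noncomputable section

namespace PAT_

/-- The invariant after `k` steps. -/
def Inv (z h : ℝ) (k : ℕ) (p : ℝ × ℝ) : Prop :=
  Pat (fun t => T^[2 * k] (z, h, t)) p.1 p.2 ∧ ∀ t ∈ Icc p.1 p.2, Reg (2 * k) (z, h, t)

theorem inv_zero {z h : ℝ} (hz : 0 < z) (hh : 0 < h) : Inv z h 0 (-z, 0) := by
  refine ⟨⟨by simpa using hz, ?_, ?_, ?_, ?_, ?_, ?_, ?_⟩, ?_⟩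
  · simp only [Nat.mul_zero, Function.iterate_zero, id]
    fun_prop
  · intro t _
    simpa using hz
  · intro t _
    simpa using hh
  · simp
  · intro t ht
    simpa using ht.2
  · simp
  · intro t ht
    have h1 : -z < t := ht.1
    have : 0 < z + t := by linarith
    simpa using this
  · intro t _ i hi
    exact absurd hi (by omega)

theorem inv_succ (H : S_STEP) {z h : ℝ} (k : ℕ) (p : ℝ × ℝ) (hp : Inv z h k p) :
    ∃ q : ℝ × ℝ, p.1 < q.1 ∧ Inv z h (k + 1) q := by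
  obtain ⟨a, b, h1, h2, h3, h4⟩ := H _ _ _ hp.1
  have e : ∀ t : ℝ, T^[2 * (k + 1)] (z, h, t) = T (T (T^[2 * k] (z, h, t))) := by
    intro t
    rw [show 2 * (k + 1) = 2 * k + 1 + 1 by ring, Function.iterate_succ_apply',
      Function.iterate_succ_apply']
  refine ⟨(a, b), h1, ?_, ?_⟩
  · have e' : (fun t => T^[2 * (k + 1)] (z, h, t)) = fun t => T (T (T^[2 * k] (z, h, t))) :=
      funext e
    rw [e']
    exact h3
  · intro t ht i hi
    have ht' : t ∈ Icc p.1 p.2 := ⟨h1.le.trans ht.1, ht.2.trans h2.le⟩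
    obtain ⟨g1, g2, g3, g4⟩ := h4 t ht
    rcases lt_or_ge i (2 * k) with hk | hk
    · exact hp.2 t ht' i hk
    · rcases Nat.eq_or_lt_of_le hk with hk | hk
      · rw [← hk]
        exact ⟨g1, g2⟩
      · have hi' : i = 2 * k + 1 := by omega
        rw [hi', Function.iterate_succ_apply']
        exact ⟨g3, g4⟩

/-- The sequence of intervals. -/
def seq (H : S_STEP) {z h : ℝ} (hz : 0 < z) (hh : 0 < h) : (k : ℕ) → {p : ℝ × ℝ // Inv z h k p}
  | 0 => ⟨(-z, 0), inv_zero hz hh⟩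
  | k + 1 => ⟨(inv_succ H k (seq H hz hh k).1 (seq H hz hh k).2).choose,
      (inv_succ H k (seq H hz hh k).1 (seq H hz hh k).2).choose_spec.2⟩

theorem seq_lt (H : S_STEP) {z h : ℝ} (hz : 0 < z) (hh : 0 < h) (k : ℕ) :
    (seq H hz hh k).1.1 < (seq H hz hh (k + 1)).1.1 :=
  (inv_succ H k (seq H hz hh k).1 (seq H hz hh k).2).choose_spec.1

end PAT_

open PAT_ in
theorem t_PAT : S_PAT := by
  intro H z h hz hh
  refine ⟨fun k => (seq H hz hh k).1.1, strictMono_nat_of_lt_succ (seq_lt H hz hh), ?_⟩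
  intro k
  obtain ⟨hP, hR⟩ := (seq H hz hh k).2
  have hmem : (seq H hz hh k).1.1 ∈ Icc (seq H hz hh k).1.1 (seq H hz hh k).1.2 :=
    ⟨le_rfl, hP.lt.le⟩
  refine ⟨2 * k, hR _ hmem, hP.pole, hP.pos1 _ hmem, ?_⟩
  have h1 : ∀ᶠ t in 𝓝[>] (seq H hz hh k).1.1, 0 < (T^[2 * k] (z, h, t)).1 +
      (T^[2 * k] (z, h, t)).2.2 := by
    filter_upwards [Ioc_mem_nhdsGT hP.lt] with t ht
    exact hP.sum t ht
  exact h1.frequently.filter_mono nhdsWithin_le_nhds

end

end Pool.Agent.N551.ZD
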