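import Mathlib
import Pool.Agent.N551.ZD.Stm
import Pool.Agent.N420.BS.Main

/-!
# Project ZD: the pairs `(g - 1, 3 g - 1)`
-/

open Filter Topology Set
open Pool.Agent.N420.BS (basin sol sol_init sol_rec)

namespace Pool.Agent.N551.ZD

noncomputable section

/-- A power of a Zariski dense set is Zariski dense. -/
theorem dense_pow {ι κ σ : Type} [Fintype ι] [DecidableEq ι] (e : σ ≃ ι × κ) (A : Set (κ → ℝ))
    (hA : ∀ P : MvPolynomial κ ℝ, (∀ v ∈ A, MvPolynomial.eval v P = 0) → P = 0)
    (P : MvPolynomial σ ℝ)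
    (hP : ∀ v : σ → ℝ, (∀ r, (fun s => v (e.symm (r, s))) ∈ A) → MvPolynomial.eval v P = 0) :
    P = 0 := by
  classical
  have key : ∀ F : Finset ι, ∀ v : σ → ℝ, (∀ r, r ∉ F → (fun s => v (e.symm (r, s))) ∈ A) →
      MvPolynomial.eval v P = 0 := by
    intro F
    induction F using Finset.induction_on with
    | empty => intro v hv; exact hP v fun r => hv r (by simp)
    | insert j F hj ih =>
      intro v hv
      let Q : MvPolynomial κ ℝ := MvPolynomial.bind₁ (fun i : σ =>
        if (e i).1 = j then MvPolynomial.X (e i).2 else MvPolynomial.C (v i)) P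
      have hQ : ∀ u : κ → ℝ, MvPolynomial.eval u Q =
          MvPolynomial.eval (fun i : σ => if (e i).1 = j then u (e i).2 else v i) P := by
        intro u
        simp only [Q]
        rw [MvPolynomial.eval, MvPolynomial.eval₂Hom_bind₁]
        congr 1
        apply congrArg
        funext i
        split_ifs <;> simp
      have hQ0 : Q = 0 := by
        apply hA
        intro u hu
        rw [hQ]
        apply ih
        intro r hr
        by_cases hrj : r = j
        · subst hrj
          have : (fun s => (fun i : σ => if (e i).1 = r then u (e i).2 else v i)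
              (e.symm (r, s))) = u := by
            funext s
            simp
          rw [this]; exact hu
        · have : (fun s => (fun i : σ => if (e i).1 = j then u (e i).2 else v i)
              (e.symm (r, s))) = fun s => v (e.symm (r, s)) := by
            funext s
            simp [hrj]
          rw [this]
          exact hv r (by simp [hrj, hr])
      have h1 := hQ (fun s => v (e.symm (j, s)))
      rw [hQ0, map_zero] at h1
      rw [h1]
      congr 1
      apply congrArg
      funext i
      split_ifs with h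
      · rw [← h]; simp
      · rfl
  apply MvPolynomial.funext
  intro v
  rw [map_zero]
  exact key Finset.univ v fun r hr => absurd (Finset.mem_univ r) hr

/-- The index `r + g s`. -/
def idx (k l : ℕ) (h : l + 1 = 3 * (k + 1)) : Fin (max k l + 1) ≃ Fin (k + 1) × Fin 3 where
  toFun i := (⟨i % (k + 1), Nat.mod_lt _ (Nat.succ_pos k)⟩, ⟨i / (k + 1), by
    rw [Nat.div_lt_iff_lt_mul (Nat.succ_pos k)]
    have := i.2
    omega⟩)
  invFun p := ⟨p.1 + (k + 1) * p.2, by
    have h1 := p.1.2
    have h2 := p.2.2
    have : (k + 1) * p.2 ≤ (k + 1) * 2 := Nat.mul_le_mul_left _ (by omega)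
    have : l ≤ max k l := le_max_right k l
    omega⟩
  left_inv i := by
    apply Fin.ext
    exact Nat.mod_add_div i (k + 1)
  right_inv p := by
    rcases p with ⟨r, s⟩
    apply Prod.ext
    · apply Fin.ext
      simp only
      rw [Nat.add_mul_mod_self_left, Nat.mod_eq_of_lt r.2]
    · apply Fin.ext
      simp only
      rw [Nat.add_mul_div_left _ _ (Nat.succ_pos k), Nat.div_eq_of_lt r.2, zero_add]

theorem sol_class {k l : ℕ} (h : l + 1 = 3 * (k + 1)) (v : Fin (max k l + 1) → ℝ)
    (r : Fin (k + 1)) (t : ℕ) :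
    sol k l v (r + (k + 1) * t) =
      sol 0 2 (fun s : Fin 3 => v ((idx k l h).symm (r, s))) t := by
  have hr := r.2
  have hmax : max k l = l := max_eq_right (by omega)
  induction t using Nat.strong_induction_on with
  | _ t ih =>
    rcases Nat.lt_or_ge t 3 with ht | ht
    · have hlt : (r : ℕ) + (k + 1) * t < max k l + 1 := by
        have : (k + 1) * t ≤ (k + 1) * 2 := Nat.mul_le_mul_left _ (by omega)
        omega
      rw [sol_init hlt]
      rw [sol_init (k := 0) (l := 2) (n := t) (by simpa using ht)]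
      rfl
    · obtain ⟨t, rfl⟩ : ∃ t', t = t' + 3 := ⟨t - 3, by omega⟩
      have e0 : (k + 1) * (t + 3) = (k + 1) * t + 3 * (k + 1) := by ring
      have e2 : (k + 1) * (t + 2) = (k + 1) * t + 2 * (k + 1) := by ring
      rw [sol_rec (k := k) (l := l) (by omega) (by omega)]
      rw [sol_rec (k := 0) (l := 2) (n := t + 3) (by omega) (by omega)]
      have a1 : (r : ℕ) + (k + 1) * (t + 3) - (k + 1) = r + (k + 1) * (t + 2) := by omega
      have a2 : (r : ℕ) + (k + 1) * (t + 3) - (l + 1) = r + (k + 1) * t := by omega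
      rw [a1, a2, ih (t + 2) (by omega), ih t (by omega)]
      rfl

lemma tendsto_cls {g : ℕ} (hg : 0 < g) {f : ℕ → ℝ} {L : ℝ}
    (h : ∀ r, r < g → Tendsto (fun t => f (r + g * t)) atTop (𝓝 L)) : Tendsto f atTop (𝓝 L) := by
  rw [Metric.tendsto_atTop]
  intro ε hε
  have h' : ∀ r : Fin g, ∃ T : ℕ, ∀ t, T ≤ t → dist (f (r + g * t)) L < ε := fun r =>
    Metric.tendsto_atTop.1 (h r r.2) ε hε
  choose T hT using h'
  refine ⟨g * (Finset.univ.sup T), fun N hN => ?_⟩
  have e : N = N % g + g * (N / g) := (Nat.mod_add_div N g).symm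
  have hlt := Nat.mod_lt N hg
  have := hT ⟨N % g, hlt⟩ (N / g) (by
    have h1 : T ⟨N % g, hlt⟩ ≤ Finset.univ.sup T := Finset.le_sup (Finset.mem_univ _)
    have h2 : Finset.univ.sup T ≤ N / g := by
      rw [Nat.le_div_iff_mul_le hg, mul_comm]; exact hN
    exact h1.trans h2)
  simp only at this
  rwa [← e] at this

/-- The pairs `(g - 1, 3 g - 1)`. -/
theorem multiples (hM : S_MAIN) {k l : ℕ} (h : l + 1 = 3 * (k + 1))
    (P : MvPolynomial (Fin (max k l + 1)) ℝ)
    (hP : ∀ v ∈ basin k l, MvPolynomial.eval v P = 0) : P = 0 := by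
  refine dense_pow (idx k l h) {v : Fin 3 → ℝ | v ∈ basin 0 2} (fun Q hQ => hM Q hQ) P ?_
  intro v hv
  apply hP
  refine ⟨?_, ?_⟩
  · intro i
    have := (hv ((idx k l h) i).1).1 ((idx k l h) i).2
    simpa using this
  · refine tendsto_cls (Nat.succ_pos k) fun r hr => ?_
    have := (hv ⟨r, hr⟩).2
    refine this.congr fun t => ?_
    exact (sol_class h v ⟨r, hr⟩ t).symm

end

end Pool.Agent.N551.ZD
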