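import Mathlib
import Pool.Agent.N551.ZD.Stm

/-!
# Project ZD, part REL (helper291): polynomial bookkeeping
-/

set_option autoImplicit false

namespace Pool.Agent.N551.ZD

noncomputable section

namespace REL_

/-- the exponent `(a, N - b, d)` -/
def mm (N : ℕ) (m : Fin 3 →₀ ℕ) : Fin 3 →₀ ℕ :=
  Finsupp.equivFunOnFinite.symm ![m 0, N - m 1, m 2]

lemma mm0 (N : ℕ) (m : Fin 3 →₀ ℕ) : mm N m 0 = m 0 := rfl

lemma mm1 (N : ℕ) (m : Fin 3 →₀ ℕ) : mm N m 1 = N - m 1 := rfl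

lemma mm2 (N : ℕ) (m : Fin 3 →₀ ℕ) : mm N m 2 = m 2 := rfl

lemma mm_inj {N : ℕ} {m m' : Fin 3 →₀ ℕ} (h : m 1 ≤ N) (h' : m' 1 ≤ N) (e : mm N m = mm N m') :
    m = m' := by
  ext i
  have e0 : mm N m 0 = mm N m' 0 := by rw [e]
  have e1 : mm N m 1 = mm N m' 1 := by rw [e]
  have e2 : mm N m 2 = mm N m' 2 := by rw [e]
  rw [mm0, mm0] at e0
  rw [mm1, mm1] at e1
  rw [mm2, mm2] at e2
  fin_cases i
  · exact e0
  · show m 1 = m' 1
    omega
  · exact e2

lemma deg3 {P : MvPolynomial (Fin 3) ℝ} {m : Fin 3 →₀ ℕ} (hm : m ∈ P.support) :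
    m 0 + m 1 + m 2 ≤ P.totalDegree := by
  have h := MvPolynomial.le_totalDegree hm
  have e : (m.sum fun _ e => e) = m 0 + m 1 + m 2 := by
    rw [Finsupp.sum_fintype _ _ (fun _ => rfl), Fin.sum_univ_three]
  rw [e] at h
  exact h

/-- the polynomial `G` -/
def GG (P : MvPolynomial (Fin 3) ℝ) : Polynomial S :=
  ∑ m ∈ P.support, Polynomial.monomial (P.totalDegree + m 1 - m 0 - m 2)
    (MvPolynomial.monomial (mm P.totalDegree m)
      (P.coeff m * Real.sqrt 2 ^ (m 0 + m 1 + m 2)) : S)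

lemma term (a b d r : ℕ) (c s x y z Y : ℝ) (hy : y ≠ 0) (hY : Y ≠ 0) :
    (c * s ^ (a + b + d) * (x ^ a * y ^ (a + d + r) * z ^ d)) * Y ^ (2 * b + r) =
      (y * Y) ^ (a + b + d + r) *
        (c * ((s * x / Y) ^ a * (s * Y / y) ^ b * (s * z / Y) ^ d)) := by
  rw [div_pow, div_pow, div_pow, mul_pow, mul_pow, mul_pow, mul_pow]
  field_simp
  ring

lemma evG_GG (P : MvPolynomial (Fin 3) ℝ) (w : V) (Y : ℝ) (hw : w.2.1 ≠ 0) (hY : Y ≠ 0) :
    evG (GG P) w Y = (w.2.1 * Y) ^ P.totalDegree *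
      MvPolynomial.eval ![Real.sqrt 2 * w.1 / Y, Real.sqrt 2 * Y / w.2.1,
        Real.sqrt 2 * w.2.2 / Y] P := by
  unfold evG GG
  rw [Polynomial.map_sum, Polynomial.eval_finsetSum, MvPolynomial.eval_eq', Finset.mul_sum]
  refine Finset.sum_congr rfl fun m hm => ?_
  rw [Polynomial.map_monomial, Polynomial.eval_monomial, MvPolynomial.eval_monomial,
    Finsupp.prod_fintype _ _ (fun _ => pow_zero _), Fin.prod_univ_three, Fin.prod_univ_three,
    mm0, mm1, mm2]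
  simp only [Matrix.cons_val_zero, Matrix.cons_val_one, Matrix.cons_val_two]
  have h := deg3 hm
  obtain ⟨r, hr⟩ : ∃ r, P.totalDegree = m 0 + m 1 + m 2 + r := ⟨_, (Nat.add_sub_of_le h).symm⟩
  rw [hr]
  have e1 : m 0 + m 1 + m 2 + r - m 1 = m 0 + m 2 + r := by omega
  have e2 : m 0 + m 1 + m 2 + r + m 1 - m 0 - m 2 = 2 * m 1 + r := by omega
  rw [e1, e2]
  exact term _ _ _ _ _ _ _ _ _ _ hw hY

lemma GG_ne (P : MvPolynomial (Fin 3) ℝ) (hP : P ≠ 0) : GG P ≠ 0 := by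
  classical
  intro h0
  obtain ⟨m0, hm0⟩ := MvPolynomial.support_nonempty.2 hP
  have h1 : (GG P).eval 1 = 0 := by rw [h0, Polynomial.eval_zero]
  unfold GG at h1
  rw [Polynomial.eval_finsetSum] at h1
  simp only [Polynomial.eval_monomial, one_pow, mul_one] at h1
  have h2 := congrArg (MvPolynomial.coeff (mm P.totalDegree m0)) h1
  rw [MvPolynomial.coeff_sum, MvPolynomial.coeff_zero, Finset.sum_eq_single m0] at h2
  · rw [MvPolynomial.coeff_monomial, if_pos rfl] at h2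
    have h3 : Real.sqrt 2 ^ (m0 0 + m0 1 + m0 2) ≠ 0 := by positivity
    have h4 : P.coeff m0 ≠ 0 := MvPolynomial.mem_support_iff.1 hm0
    exact mul_ne_zero h4 h3 h2
  · intro m hm hne
    rw [MvPolynomial.coeff_monomial, if_neg]
    intro e
    have ha := deg3 hm
    have hb := deg3 hm0
    exact hne (mm_inj (by omega) (by omega) e)
  · intro h
    exact absurd hm0 h

end REL_

theorem t_REL : S_REL := by
  intro P hP
  refine ⟨REL_.GG P, REL_.GG_ne P hP, ?_⟩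
  intro w Y hw hY h
  rw [REL_.evG_GG P w Y hw.2.1.ne' hY.ne', h, mul_zero]

end

end Pool.Agent.N551.ZD
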