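import Mathlib
import Pool.Agent.N551.ZD.Stm

/-! Part SHIFT of the project ZD: clear denominators. -/

set_option autoImplicit false

open Filter Topology Set

namespace Pool.Agent.N551.ZD

namespace SHIFT_

theorem ev_C (a : ℝ) (w : V) : ev (MvPolynomial.C a) w = a := by simp [ev]
theorem ev_add (f g : S) (w : V) : ev (f + g) w = ev f w + ev g w := by simp [ev]
theorem ev_mul (f g : S) (w : V) : ev (f * g) w = ev f w * ev g w := by simp [ev]
theorem ev_pow (f : S) (n : ℕ) (w : V) : ev (f ^ n) w = ev f w ^ n := by simp [ev]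
theorem ev_zero (w : V) : ev 0 w = 0 := by simp [ev]
theorem ev_X0 (w : V) : ev (MvPolynomial.X 0) w = w.1 := by simp [ev]
theorem ev_X1 (w : V) : ev (MvPolynomial.X 1) w = w.2.1 := by simp [ev]
theorem ev_X2 (w : V) : ev (MvPolynomial.X 2) w = w.2.2 := by simp [ev]

noncomputable def Q : S := MvPolynomial.X 0 + MvPolynomial.X 2

theorem ev_Q (w : V) : ev Q w = w.1 + w.2.2 := by rw [Q, ev_add, ev_X0, ev_X2]

theorem exists_A (i : Fin 3) : ∃ A : S, ∀ w : V, w.1 + w.2.2 ≠ 0 →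
    ev A w = (w.1 + w.2.2) * ev (MvPolynomial.X i) (T w) := by
  fin_cases i
  · refine ⟨Q * MvPolynomial.X 2, fun w _ => ?_⟩
    show ev (Q * MvPolynomial.X 2) w = (w.1 + w.2.2) * ev (MvPolynomial.X 0) (T w)
    rw [ev_mul, ev_Q, ev_X2, ev_X0]
    rfl
  · refine ⟨MvPolynomial.C 2 * MvPolynomial.X 0 * MvPolynomial.X 2, fun w hw => ?_⟩
    show ev (MvPolynomial.C 2 * MvPolynomial.X 0 * MvPolynomial.X 2) w =
      (w.1 + w.2.2) * ev (MvPolynomial.X 1) (T w)
    rw [ev_mul, ev_mul, ev_C, ev_X0, ev_X2, ev_X1]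
    show 2 * w.1 * w.2.2 = (w.1 + w.2.2) * (2 * w.1 * w.2.2 / (w.1 + w.2.2))
    field_simp
  · refine ⟨MvPolynomial.X 0 * MvPolynomial.X 2 + MvPolynomial.C (1 / 2) * Q * MvPolynomial.X 1,
      fun w hw => ?_⟩
    show ev (MvPolynomial.X 0 * MvPolynomial.X 2 +
      MvPolynomial.C (1 / 2) * Q * MvPolynomial.X 1) w =
      (w.1 + w.2.2) * ev (MvPolynomial.X 2) (T w)
    rw [ev_add, ev_mul, ev_mul, ev_mul, ev_C, ev_X0, ev_X2, ev_X1, ev_Q, ev_X2]
    show w.1 * w.2.2 + 1 / 2 * (w.1 + w.2.2) * w.2.1 =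
      (w.1 + w.2.2) * ((2 * w.1 * w.2.2 / (w.1 + w.2.2) + w.2.1) / 2)
    field_simp

theorem clear (f : S) : ∃ N₀ : ℕ, ∀ N, N₀ ≤ N → ∃ f' : S, ∀ w : V, w.1 + w.2.2 ≠ 0 →
    ev f' w = (w.1 + w.2.2) ^ N * ev f (T w) := by
  induction f using MvPolynomial.induction_on with
  | C a =>
    refine ⟨0, fun N _ => ⟨Q ^ N * MvPolynomial.C a, fun w _ => ?_⟩⟩
    rw [ev_mul, ev_pow, ev_Q, ev_C, ev_C]
  | add f g hf hg =>
    obtain ⟨N1, h1⟩ := hf
    obtain ⟨N2, h2⟩ := hg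
    refine ⟨max N1 N2, fun N hN => ?_⟩
    obtain ⟨f', hf'⟩ := h1 N ((le_max_left _ _).trans hN)
    obtain ⟨g', hg'⟩ := h2 N ((le_max_right _ _).trans hN)
    refine ⟨f' + g', fun w hw => ?_⟩
    rw [ev_add, hf' w hw, hg' w hw, ev_add]
    ring
  | mul_X f i hf =>
    obtain ⟨N1, h1⟩ := hf
    obtain ⟨A, hA⟩ := exists_A i
    refine ⟨N1 + 1, fun N hN => ?_⟩
    obtain ⟨M, rfl⟩ : ∃ M, N = M + 1 := ⟨N - 1, by omega⟩
    obtain ⟨f', hf'⟩ := h1 M (by omega)
    refine ⟨f' * A, fun w hw => ?_⟩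
    rw [ev_mul, hf' w hw, hA w hw, ev_mul]
    ring

theorem step (G : Polynomial S) : ∃ G' : Polynomial S, G'.natDegree ≤ G.natDegree ∧
    ∀ w : V, w.1 + w.2.2 ≠ 0 → ∃ e : ℝ, e ≠ 0 ∧
      ∀ i, ev (G'.coeff i) w = e * ev (G.coeff i) (T w) := by
  choose N₀ hN₀ using clear
  set N := (Finset.range (G.natDegree + 1)).sup fun i => N₀ (G.coeff i) with hN
  have h1 : ∀ i, ∃ f' : S, i < G.natDegree + 1 → ∀ w : V, w.1 + w.2.2 ≠ 0 →
      ev f' w = (w.1 + w.2.2) ^ N * ev (G.coeff i) (T w) := by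
    intro i
    by_cases hi : i < G.natDegree + 1
    · obtain ⟨f', hf'⟩ := hN₀ (G.coeff i) N
        (Finset.le_sup (f := fun i => N₀ (G.coeff i)) (Finset.mem_range.mpr hi))
      exact ⟨f', fun _ => hf'⟩
    · exact ⟨0, fun h => absurd h hi⟩
  choose g hg using h1
  refine ⟨∑ i ∈ Finset.range (G.natDegree + 1), Polynomial.monomial i (g i), ?_, ?_⟩
  · refine Polynomial.natDegree_sum_le_of_forall_le _ _ fun i hi => ?_
    refine (Polynomial.natDegree_monomial_le _).trans ?_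
    have := Finset.mem_range.mp hi
    omega
  · intro w hw
    refine ⟨(w.1 + w.2.2) ^ N, pow_ne_zero _ hw, fun i => ?_⟩
    rw [Polynomial.finset_sum_coeff]
    simp only [Polynomial.coeff_monomial]
    rw [Finset.sum_ite_eq']
    split_ifs with h
    · exact hg i (Finset.mem_range.mp h) w hw
    · have h2 : G.coeff i = 0 := by
        refine Polynomial.coeff_eq_zero_of_natDegree_lt ?_
        rw [Finset.mem_range] at h
        omega
      rw [h2, ev_zero, ev_zero, mul_zero]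

end SHIFT_

theorem t_SHIFT : S_SHIFT := by
  intro n
  induction n with
  | zero =>
    intro G
    exact ⟨G, le_rfl, fun w _ => ⟨1, one_ne_zero, fun i => by rw [one_mul]; rfl⟩⟩
  | succ n ih =>
    intro G
    obtain ⟨G1, hd1, h1⟩ := ih G
    obtain ⟨G2, hd2, h2⟩ := SHIFT_.step G1
    refine ⟨G2, hd2.trans hd1, fun w hw => ?_⟩
    have hw0 : w.1 + w.2.2 ≠ 0 := (hw 0 (Nat.succ_pos n)).1
    have hwn : Reg n (T w) := by
      intro i hi
      have := hw (i + 1) (by omega)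
      rwa [Function.iterate_succ_apply] at this
    obtain ⟨e1, he1, h1⟩ := h1 (T w) hwn
    obtain ⟨e2, he2, h2⟩ := h2 w hw0
    refine ⟨e2 * e1, mul_ne_zero he2 he1, fun i => ?_⟩
    rw [h2, h1, Function.iterate_succ_apply]
    ring

end Pool.Agent.N551.ZD
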