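import Pool.Agent.N551.ZD.Stm

/-!
Project ZD (helper551), leaf STEP (helper793): intermediate value theorem, three extreme zeros.
-/

open Filter Topology Set

namespace Pool.Agent.N551.ZD

namespace STEP_

theorem last_zero {g : ℝ → ℝ} {a b : ℝ} (hab : a ≤ b) (hg : ContinuousOn g (Icc a b))
    (ha : g a < 0) (hb : 0 < g b) :
    ∃ ζ, a < ζ ∧ ζ < b ∧ g ζ = 0 ∧ ∀ t ∈ Ioc ζ b, 0 < g t := by
  have hcl : IsClosed (Icc a b ∩ g ⁻¹' Iic 0) :=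
    hg.preimage_isClosed_of_isClosed isClosed_Icc isClosed_Iic
  have hc : IsCompact (Icc a b ∩ g ⁻¹' Iic 0) :=
    isCompact_Icc.of_isClosed_subset hcl inter_subset_left
  obtain ⟨ζ, ⟨hζ1, hζ2⟩, hζ3⟩ := hc.exists_isGreatest ⟨a, ⟨left_mem_Icc.2 hab, ha.le⟩⟩
  have hpos : ∀ t ∈ Ioc ζ b, 0 < g t := by
    intro t ht
    by_contra hcon
    push Not at hcon
    have := hζ3 (show t ∈ Icc a b ∩ g ⁻¹' Iic 0 from ⟨⟨hζ1.1.trans ht.1.le, ht.2⟩, hcon⟩)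
    exact absurd this (not_le.2 ht.1)
  have hζ2' : g ζ ≤ 0 := hζ2
  obtain ⟨t, ht1, ht2⟩ := intermediate_value_Icc hζ1.2
    (hg.mono (Icc_subset_Icc_left hζ1.1)) (show (0 : ℝ) ∈ Icc (g ζ) (g b) from ⟨hζ2', hb.le⟩)
  have hζ0 : g ζ = 0 := by
    rcases eq_or_lt_of_le ht1.1 with h | h
    · rw [h]; exact ht2
    · exact absurd ht2 (hpos t ⟨h, ht1.2⟩).ne'
  refine ⟨ζ, lt_of_le_of_ne hζ1.1 ?_, lt_of_le_of_ne hζ1.2 ?_, hζ0, hpos⟩
  · rintro rfl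
    linarith
  · rintro rfl
    linarith

theorem first_zero {g : ℝ → ℝ} {a b : ℝ} (hab : a ≤ b) (hg : ContinuousOn g (Icc a b))
    (ha : g a < 0) (hb : 0 < g b) :
    ∃ ζ, a < ζ ∧ ζ < b ∧ g ζ = 0 ∧ ∀ t ∈ Ico a ζ, g t < 0 := by
  have hcl : IsClosed (Icc a b ∩ g ⁻¹' Ici 0) :=
    hg.preimage_isClosed_of_isClosed isClosed_Icc isClosed_Ici
  have hc : IsCompact (Icc a b ∩ g ⁻¹' Ici 0) :=
    isCompact_Icc.of_isClosed_subset hcl inter_subset_left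
  obtain ⟨ζ, ⟨hζ1, hζ2⟩, hζ3⟩ := hc.exists_isLeast ⟨b, ⟨right_mem_Icc.2 hab, hb.le⟩⟩
  have hneg : ∀ t ∈ Ico a ζ, g t < 0 := by
    intro t ht
    by_contra hcon
    push Not at hcon
    have := hζ3 (show t ∈ Icc a b ∩ g ⁻¹' Ici 0 from ⟨⟨ht.1, ht.2.le.trans hζ1.2⟩, hcon⟩)
    exact absurd this (not_le.2 ht.2)
  have hζ2' : 0 ≤ g ζ := hζ2
  obtain ⟨t, ht1, ht2⟩ := intermediate_value_Icc hζ1.1
    (hg.mono (Icc_subset_Icc_right hζ1.2)) (show (0 : ℝ) ∈ Icc (g a) (g ζ) from ⟨ha.le, hζ2'⟩)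
  have hζ0 : g ζ = 0 := by
    rcases eq_or_lt_of_le ht1.2 with h | h
    · rw [← h]; exact ht2
    · exact absurd ht2 (hneg t ⟨ht1.1, h⟩).ne
  refine ⟨ζ, lt_of_le_of_ne hζ1.1 ?_, lt_of_le_of_ne hζ1.2 ?_, hζ0, hneg⟩
  · rintro rfl
    linarith
  · rintro rfl
    linarith

end STEP_

open STEP_ in
theorem t_STEP : S_STEP := by
  intro c α β h
  obtain ⟨X, hX⟩ : ∃ X : ℝ → ℝ, X = fun t => (c t).1 := ⟨_, rfl⟩
  obtain ⟨Y, hY⟩ : ∃ Y : ℝ → ℝ, Y = fun t => (c t).2.1 := ⟨_, rfl⟩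
  obtain ⟨Z, hZ⟩ : ∃ Z : ℝ → ℝ, Z = fun t => (c t).2.2 := ⟨_, rfl⟩
  obtain ⟨B, hB⟩ : ∃ B : ℝ → ℝ, B = fun t => 2 * X t * Z t / (X t + Z t) := ⟨_, rfl⟩
  obtain ⟨D, hD⟩ : ∃ D : ℝ → ℝ, D = fun t => (B t + Y t) / 2 := ⟨_, rfl⟩
  obtain ⟨E, hE⟩ : ∃ E : ℝ → ℝ, E = fun t => 2 * Z t * D t / (Z t + D t) := ⟨_, rfl⟩
  obtain ⟨F, hF⟩ : ∃ F : ℝ → ℝ, F = fun t => (E t + B t) / 2 := ⟨_, rfl⟩
  have hT1 : ∀ t, T (c t) = (Z t, B t, D t) := by
    intro t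
    rw [hD, hB, hX, hY, hZ]
    rfl
  have hT2 : ∀ t, T (T (c t)) = (D t, E t, F t) := by
    intro t
    rw [hT1, hF, hE]
    rfl
  have hαβ := h.lt
  have cX : ContinuousOn X (Icc α β) := by
    rw [hX]; exact continuous_fst.comp_continuousOn h.cont
  have cY : ContinuousOn Y (Icc α β) := by
    rw [hY]; exact (continuous_fst.comp continuous_snd).comp_continuousOn h.cont
  have cZ : ContinuousOn Z (Icc α β) := by
    rw [hZ]; exact (continuous_snd.comp continuous_snd).comp_continuousOn h.cont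
  have pX : ∀ t ∈ Icc α β, 0 < X t := by rw [hX]; exact h.pos1
  have pY : ∀ t ∈ Icc α β, 0 < Y t := by rw [hY]; exact h.pos2
  have zβ : Z β = 0 := by rw [hZ]; exact h.zero
  have nZ : ∀ t ∈ Ico α β, Z t < 0 := by rw [hZ]; exact h.neg
  have pole : X α + Z α = 0 := by rw [hX, hZ]; exact h.pole
  have pS : ∀ t ∈ Ioc α β, 0 < X t + Z t := by rw [hX, hZ]; exact h.sum
  have cB : ContinuousOn B (Ioc α β) := by
    rw [hB]
    refine ContinuousOn.div ?_ ?_ fun t ht => (pS t ht).ne'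
    · exact ((continuousOn_const.mul cX).mul cZ).mono Ioc_subset_Icc_self
    · exact (cX.add cZ).mono Ioc_subset_Icc_self
  have nB : ∀ t ∈ Ioo α β, B t < 0 := by
    intro t ht
    rw [hB]
    have h1 := pX t ⟨ht.1.le, ht.2.le⟩
    have h2 := nZ t ⟨ht.1.le, ht.2⟩
    exact div_neg_of_neg_of_pos (mul_neg_of_pos_of_neg (by linarith) h2) (pS t ⟨ht.1, ht.2.le⟩)
  have cD : ContinuousOn D (Ioc α β) := by
    rw [hD]
    exact (cB.add (cY.mono Ioc_subset_Icc_self)).div_const 2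
  have Dβ : 0 < D β := by
    rw [hD, hB]
    simp only
    rw [zβ, mul_zero, zero_div, zero_add]
    exact half_pos (pY β (right_mem_Icc.2 hαβ.le))
  -- a point near `α` where `D` is negative
  obtain ⟨t0, ht0, hDt0⟩ : ∃ t0 ∈ Ioo α β, D t0 < 0 := by
    have h1 : ContinuousOn (fun t => 2 * X t * Z t + Y t * (X t + Z t)) (Icc α β) :=
      ((continuousOn_const.mul cX).mul cZ).add (cY.mul (cX.add cZ))
    have h2 : 2 * X α * Z α + Y α * (X α + Z α) < 0 := by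
      rw [pole, mul_zero, add_zero]
      have h3 := pX α (left_mem_Icc.2 hαβ.le)
      exact mul_neg_of_pos_of_neg (by linarith) (by linarith)
    have h3 : Tendsto (fun t => 2 * X t * Z t + Y t * (X t + Z t)) (𝓝[>] α)
        (𝓝 (2 * X α * Z α + Y α * (X α + Z α))) :=
      (h1 α (left_mem_Icc.2 hαβ.le)).mono_left
        (nhdsWithin_le_iff.2 (Filter.mem_of_superset (Ioo_mem_nhdsGT hαβ) Ioo_subset_Icc_self))
    obtain ⟨t, ht1, ht2⟩ := ((h3.eventually_lt_const h2).and (Ioo_mem_nhdsGT hαβ)).exists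
    refine ⟨t, ht2, ?_⟩
    have h4 := pS t ⟨ht2.1, ht2.2.le⟩
    rw [hD, hB]
    simp only
    have h5 : 2 * X t * Z t / (X t + Z t) + Y t =
        (2 * X t * Z t + Y t * (X t + Z t)) / (X t + Z t) := by
      field_simp
    rw [h5]
    have h6 := div_neg_of_neg_of_pos ht1 h4
    linarith
  obtain ⟨ζ, hζ1, hζ2, hζ0, hζp⟩ := last_zero ht0.2.le
    (cD.mono fun t ht => ⟨ht0.1.trans_le ht.1, ht.2⟩) hDt0 Dβ
  have hαζ : α < ζ := ht0.1.trans hζ1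
  obtain ⟨γ, hγ1, hγ2, hγ0, hγn⟩ := first_zero (g := fun t => Z t + D t) hζ2.le
    ((cZ.mono (Icc_subset_Icc_left hαζ.le)).add
      (cD.mono fun t ht => ⟨hαζ.trans_le ht.1, ht.2⟩))
    (show Z ζ + D ζ < 0 by rw [hζ0, add_zero]; exact nZ ζ ⟨hαζ.le, hζ2⟩)
    (show 0 < Z β + D β by rw [zβ, zero_add]; exact Dβ)
  have cE : ContinuousOn E (Ico ζ γ) := by
    rw [hE]
    have c1 : ContinuousOn Z (Ico ζ γ) :=
      cZ.mono fun t ht => ⟨hαζ.le.trans ht.1, (ht.2.trans hγ2).le⟩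
    have c2 : ContinuousOn D (Ico ζ γ) :=
      cD.mono fun t ht => ⟨hαζ.trans_le ht.1, (ht.2.trans hγ2).le⟩
    exact ((continuousOn_const.mul c1).mul c2).div (c1.add c2) fun t ht => (hγn t ht).ne
  have cF : ContinuousOn F (Ico ζ γ) := by
    rw [hF]
    exact (cE.add (cB.mono fun t ht => ⟨hαζ.trans_le ht.1, (ht.2.trans hγ2).le⟩)).div_const 2
  have pE : ∀ t ∈ Ioo ζ γ, 0 < E t := by
    intro t ht
    rw [hE]
    have h1 := nZ t ⟨(hαζ.trans ht.1).le, ht.2.trans hγ2⟩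
    have h2 := hζp t ⟨ht.1, (ht.2.trans hγ2).le⟩
    exact div_pos_of_neg_of_neg (mul_neg_of_neg_of_pos (by linarith) h2) (hγn t ⟨ht.1.le, ht.2⟩)
  have Fζ : F ζ < 0 := by
    rw [hF, hE]
    simp only
    rw [hζ0, mul_zero, zero_div, zero_add]
    have := nB ζ ⟨hαζ, hζ2⟩
    linarith
  -- a point near `γ` where `F` is positive
  obtain ⟨t1, ht1, hFt1⟩ : ∃ t1 ∈ Ioo ζ γ, 0 < F t1 := by
    have hαγ : α < γ := hαζ.trans hγ1
    have h1 : ContinuousOn (fun t => 2 * Z t * D t + B t * (Z t + D t)) (Ioc α β) :=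
      ((continuousOn_const.mul (cZ.mono Ioc_subset_Icc_self)).mul cD).add
        (cB.mul ((cZ.mono Ioc_subset_Icc_self).add cD))
    have h2 : 2 * Z γ * D γ + B γ * (Z γ + D γ) < 0 := by
      rw [hγ0, mul_zero, add_zero]
      have h3 := nZ γ ⟨hαγ.le, hγ2⟩
      exact mul_neg_of_neg_of_pos (by linarith) (by linarith)
    have h3 : Tendsto (fun t => 2 * Z t * D t + B t * (Z t + D t)) (𝓝[<] γ)
        (𝓝 (2 * Z γ * D γ + B γ * (Z γ + D γ))) :=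
      (h1 γ ⟨hαγ, hγ2.le⟩).mono_left
        (nhdsWithin_le_iff.2 (Filter.mem_of_superset (Ioo_mem_nhdsLT hαγ)
          fun t ht => ⟨ht.1, (ht.2.trans hγ2).le⟩))
    obtain ⟨t, ht1, ht2⟩ := ((h3.eventually_lt_const h2).and (Ioo_mem_nhdsLT hγ1)).exists
    refine ⟨t, ht2, ?_⟩
    have h4 := hγn t ⟨ht2.1.le, ht2.2⟩
    have h4' := h4.ne
    rw [hF, hE]
    simp only
    have h5 : 2 * Z t * D t / (Z t + D t) + B t =
        (2 * Z t * D t + B t * (Z t + D t)) / (Z t + D t) := by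
      field_simp
    rw [h5]
    have h6 := div_pos_of_neg_of_neg ht1 h4
    linarith
  obtain ⟨β', hβ1, hβ2, hβ0, hβn⟩ := first_zero ht1.1.le
    (cF.mono fun t ht => ⟨ht.1, ht.2.trans_lt ht1.2⟩) Fζ hFt1
  have hβγ : β' < γ := hβ2.trans ht1.2
  obtain ⟨α', hα1, hα2, hα0, hαp⟩ := last_zero (g := fun t => D t + F t) hβ1.le
    ((cD.mono fun t ht => ⟨hαζ.trans_le ht.1, (ht.2.trans_lt (hβγ.trans hγ2)).le⟩).add
      (cF.mono fun t ht => ⟨ht.1, ht.2.trans_lt hβγ⟩))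
    (show D ζ + F ζ < 0 by rw [hζ0, zero_add]; exact Fζ)
    (show 0 < D β' + F β' by
      rw [hβ0, add_zero]
      exact hζp β' ⟨hβ1, (hβγ.trans hγ2).le⟩)
  refine ⟨α', β', hαζ.trans hα1, hβγ.trans hγ2, ?_, ?_⟩
  · have hcongr : (fun t => T (T (c t))) = fun t => (D t, E t, F t) := funext hT2
    rw [hcongr]
    refine ⟨hα2, ?_, ?_, ?_, hβ0, ?_, hα0, hαp⟩
    · have c1 : ContinuousOn D (Icc α' β') :=
        cD.mono fun t ht => ⟨hαζ.trans (hα1.trans_le ht.1), (ht.2.trans_lt (hβγ.trans hγ2)).le⟩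
      have c2 : ContinuousOn E (Icc α' β') :=
        cE.mono fun t ht => ⟨hα1.le.trans ht.1, ht.2.trans_lt hβγ⟩
      have c3 : ContinuousOn F (Icc α' β') :=
        cF.mono fun t ht => ⟨hα1.le.trans ht.1, ht.2.trans_lt hβγ⟩
      exact c1.prodMk (c2.prodMk c3)
    · intro t ht
      exact hζp t ⟨hα1.trans_le ht.1, (ht.2.trans_lt (hβγ.trans hγ2)).le⟩
    · intro t ht
      exact pE t ⟨hα1.trans_le ht.1, ht.2.trans_lt hβγ⟩
    · intro t ht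
      exact hβn t ⟨hα1.le.trans ht.1, ht.2⟩
  · intro t ht
    have h1 : α < t := hαζ.trans (hα1.trans_le ht.1)
    have h2 : t < β := ht.2.trans_lt (hβγ.trans hγ2)
    have e1 : (c t).1 + (c t).2.2 = X t + Z t := by rw [hX, hZ]
    have e2 : (c t).2.2 = Z t := by rw [hZ]
    refine ⟨?_, ?_, ?_, ?_⟩
    · rw [e1]; exact (pS t ⟨h1, h2.le⟩).ne'
    · rw [e2]; exact (nZ t ⟨h1.le, h2⟩).ne
    · rw [hT1]; exact (hγn t ⟨hα1.le.trans ht.1, ht.2.trans_lt hβγ⟩).ne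
    · rw [hT1]; exact (hζp t ⟨hα1.trans_le ht.1, h2.le⟩).ne'

end Pool.Agent.N551.ZD
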