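import Mathlib
import Pool.Agent.N551.ZD.Stm
import Pool.Agent.N551.ZD.LIM1
import Pool.Agent.N551.ZD.LIM2
import Pool.Agent.N551.ZD.LIM3
import Pool.Agent.N551.ZD.REL
import Pool.Agent.N551.ZD.SHIFT
import Pool.Agent.N551.ZD.MIN
import Pool.Agent.N551.ZD.GEN
import Pool.Agent.N551.ZD.STEP
import Pool.Agent.N551.ZD.PAT
import Pool.Agent.N551.ZD.BLOW
import Pool.Agent.N551.ZD.LEAD
import Pool.Agent.N551.ZD.END
import Pool.Agent.N551.ZD.Prod
import Pool.Agent.N551.ZD.Semi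

/-!
# Project ZD: assembly
-/

namespace Pool.Agent.N551.ZD

theorem zdense : S_MAIN :=
  main t_LIM1 t_LIM2 t_LIM3 t_REL t_SHIFT t_MIN t_GEN t_STEP t_PAT t_BLOW t_LEAD t_END

end Pool.Agent.N551.ZD
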