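import Mathlib
import Pool.Agent.N551.ZD.Stm
import Pool.Agent.N420.BS.Main

/-!
# Project ZD: the basin is not semialgebraic
-/

open Filter Topology Set
open Pool.Agent.N420.BS (basin sol scale section_main)

namespace Pool.Agent.N551.ZD

noncomputable section

/-- Semialgebraic sets: finite unions of sets given by finitely many polynomial equations and
strict inequalities. -/
def SemiAlg {σ : Type} (A : Set (σ → ℝ)) : Prop :=
  ∃ (m : ℕ) (E Q : Fin m → Finset (MvPolynomial σ ℝ)),
    A = {v | ∃ i, (∀ f ∈ E i, MvPolynomial.eval v f = 0) ∧ ∀ f ∈ Q i, 0 < MvPolynomial.eval v f}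

theorem semi_of {σ : Type} {A : Set (σ → ℝ)}
    (hZ : ∀ P : MvPolynomial σ ℝ, (∀ v ∈ A, MvPolynomial.eval v P = 0) → P = 0)
    (hI : ∀ v ∈ A, ∃ u : ℝ → σ → ℝ, ContinuousAt u 1 ∧ u 1 = v ∧ ∃ᶠ t in 𝓝 (1 : ℝ), u t ∉ A) :
    ¬ SemiAlg A := by
  classical
  rintro ⟨m, E, Q, rfl⟩
  have h1 : ∀ i : Fin m, ∃ f : MvPolynomial σ ℝ, f ≠ 0 ∧ ∀ v,
      ((∀ f ∈ E i, MvPolynomial.eval v f = 0) ∧ ∀ f ∈ Q i, 0 < MvPolynomial.eval v f) →
      MvPolynomial.eval v f = 0 := by
    intro i
    by_cases hE : ∃ f ∈ E i, f ≠ 0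
    · obtain ⟨f, hf, hf0⟩ := hE
      exact ⟨f, hf0, fun v hv => hv.1 f hf⟩
    · push Not at hE
      refine ⟨1, one_ne_zero, fun v hv => ?_⟩
      exfalso
      obtain ⟨u, hu, hu1, hfr⟩ := hI v ⟨i, hv⟩
      apply hfr
      have hev : ∀ f ∈ Q i, ∀ᶠ t in 𝓝 (1 : ℝ), 0 < MvPolynomial.eval (u t) f := by
        intro f hf
        have hc : ContinuousAt (fun t => MvPolynomial.eval (u t) f) 1 :=
          (MvPolynomial.continuous_eval f).continuousAt.comp hu
        have h0 : 0 < MvPolynomial.eval (u 1) f := by rw [hu1]; exact hv.2 f hf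
        exact hc.eventually (lt_mem_nhds h0)
      have hall := (Filter.eventually_all_finset (Q i)).2 hev
      filter_upwards [hall] with t ht
      intro hn
      apply hn
      refine ⟨i, fun f hf => ?_, ht⟩
      rw [hE f hf, map_zero]
  choose f hf0 hf using h1
  have hprod := hZ (∏ i, f i) (by
    rintro v ⟨i, hv⟩
    rw [map_prod]
    exact Finset.prod_eq_zero (Finset.mem_univ i) (hf i v hv))
  rw [Finset.prod_eq_zero_iff] at hprod
  obtain ⟨i, -, hi⟩ := hprod
  exact hf0 i hi

theorem not_semi {k l : ℕ} (h : l + 1 = 3 * (k + 1))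
    (hZ : ∀ P : MvPolynomial (Fin (max k l + 1)) ℝ,
      (∀ v ∈ basin k l, MvPolynomial.eval v P = 0) → P = 0) : ¬ SemiAlg (basin k l) := by
  refine semi_of hZ ?_
  intro v hv
  have hval : padicValNat 2 (k + 1) = padicValNat 2 (l + 1) := by
    rw [h, padicValNat.mul (by norm_num) (by omega)]
    have : padicValNat 2 3 = 0 := by
      rw [padicValNat.eq_zero_iff]
      right; right; norm_num
    omega
  obtain ⟨hg, hsec⟩ := section_main k l hval
  obtain ⟨c, -, hc⟩ := hsec v hv.1
  refine ⟨fun t => scale hg (fun _ => t) v, ?_, ?_, ?_⟩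
  · rw [continuousAt_pi]
    intro i
    unfold scale
    split_ifs
    · exact continuousAt_const.mul continuousAt_id
    · exact continuousAt_const.div continuousAt_id one_ne_zero
  · funext i
    change scale hg (fun _ => (1 : ℝ)) v i = v i
    simp only [scale]
    split_ifs <;> simp
  · have hone : (fun _ => (1 : ℝ)) = c := by
      apply hc
      refine ⟨fun _ => one_pos, ?_⟩
      have : scale hg (fun _ => (1 : ℝ)) v = v := by
        funext i
        simp only [scale]
        split_ifs <;> simp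
      rw [this]
      exact hv
    have hfr : ∃ᶠ t in 𝓝 (1 : ℝ), 1 < t := frequently_gt_nhds (1 : ℝ)
    refine hfr.mono fun t ht hmem => ?_
    have ht' : (fun _ => t) = c := hc _ ⟨fun _ => by linarith, hmem⟩
    have h3 : t = 1 := congrFun (ht'.trans hone.symm) ⟨0, hg⟩
    linarith

end

end Pool.Agent.N551.ZD
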